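import Pool.Agent.U220.RD.Stm2

namespace Pool.Agent.U220.RD

open MvPolynomial

section rho

variable {κ k : Type} [Field κ] [Algebra ℂ κ] [Field k] [Algebra ℂ k] {O : ValuationSubring κ}

lemma resInd_const {σ : Type} {u : σ → κ} (h : ResInd O u) (c : ℂ) : algebraMap ℂ κ c ∈ O := by
  by_cases hc : c = 0
  · subst hc
    rw [map_zero]
    exact O.zero_mem
  · have := h (C c) (by simpa using hc)
    rw [← ValuationSubring.valuation_le_one_iff]
    rw [algHom_C] at this
    exact this.le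

/-- constants -/
noncomputable def cHom (O : ValuationSubring κ) (hC : ∀ c : ℂ, algebraMap ℂ κ c ∈ O) : ℂ →+* O :=
  (algebraMap ℂ κ).codRestrict O hC

/-- evaluation in `O` -/
noncomputable def ev {σ : Type} (O : ValuationSubring κ) (hC : ∀ c : ℂ, algebraMap ℂ κ c ∈ O)
    (U : σ → O) : MvPolynomial σ ℂ →+* O := eval₂Hom (cHom O hC) U

lemma ev_coe {σ : Type} (hC : ∀ c : ℂ, algebraMap ℂ κ c ∈ O) (U : σ → O)
    (p : MvPolynomial σ ℂ) : (ev O hC U p : κ) = aeval (fun j => (U j : κ)) p := by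
  have : (O.subtype : O →+* κ).comp (ev O hC U) =
      (aeval (fun j => (U j : κ)) : MvPolynomial σ ℂ →ₐ[ℂ] κ).toRingHom := by
    refine MvPolynomial.ringHom_ext (fun c => ?_) (fun j => ?_)
    · simp [ev, cHom]
    · simp [ev]
  exact congrArg (fun φ => φ p) this

lemma ev_rho {σ : Type} (hC : ∀ c : ℂ, algebraMap ℂ κ c ∈ O) (U : σ → O) (ρ : O →+* k)
    (hρ : ∀ (c : ℂ) (x : O), (x : κ) = algebraMap ℂ κ c → ρ x = algebraMap ℂ k c)
    (p : MvPolynomial σ ℂ) : ρ (ev O hC U p) = aeval (fun j => ρ (U j)) p := by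
  have : ρ.comp (ev O hC U) =
      (aeval (fun j => ρ (U j)) : MvPolynomial σ ℂ →ₐ[ℂ] k).toRingHom := by
    refine MvPolynomial.ringHom_ext (fun c => ?_) (fun j => ?_)
    · have : ρ (cHom O hC c) = algebraMap ℂ k c := hρ c _ rfl
      simp [ev, this]
    · simp [ev]
  exact congrArg (fun φ => φ p) this

lemma rho_zero (ρ : O →+* k) (hs : Function.Surjective ρ) (x : O) :
    ρ x = 0 ↔ O.valuation (x : κ) < 1 := by
  have h1 : (RingHom.ker ρ).IsMaximal := RingHom.ker_isMaximal_of_surjective ρ hs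
  have h2 : RingHom.ker ρ = IsLocalRing.maximalIdeal O := IsLocalRing.eq_maximalIdeal h1
  rw [← ValuationSubring.valuation_lt_one_iff, ← h2, RingHom.mem_ker]

lemma resInd_iff {σ : Type} (hC : ∀ c : ℂ, algebraMap ℂ κ c ∈ O) (U : σ → O) (ρ : O →+* k)
    (hs : Function.Surjective ρ)
    (hρ : ∀ (c : ℂ) (x : O), (x : κ) = algebraMap ℂ κ c → ρ x = algebraMap ℂ k c) :
    ResInd O (fun j => (U j : κ)) ↔ AlgebraicIndependent ℂ (fun j => ρ (U j)) := by
  rw [algebraicIndependent_iff]
  constructor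
  · intro h p hp
    by_contra hne
    have h1 := h p hne
    rw [← ev_coe hC U] at h1
    rw [← ev_rho hC U ρ hρ, rho_zero ρ hs] at hp
    exact hp.ne h1
  · intro h p hp
    have h1 : ¬ O.valuation (ev O hC U p : κ) < 1 := by
      rw [← rho_zero ρ hs, ev_rho hC U ρ hρ]
      exact fun h0 => hp (h p h0)
    have h2 : O.valuation (ev O hC U p : κ) ≤ 1 :=
      (ValuationSubring.valuation_le_one_iff _ _).2 (ev O hC U p).2
    rw [← ev_coe hC U]
    exact le_antisymm h2 (not_lt.1 h1)

lemma resInd_algInd {σ : Type} {u : σ → κ} (h : ResInd O u) : AlgebraicIndependent ℂ u := by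
  rw [algebraicIndependent_iff]
  intro p hp
  by_contra hne
  have := h p hne
  rw [hp, map_zero] at this
  exact zero_ne_one this

/-- elements of the field generated by a `ResInd` family -/
lemma resInd_adjoin {σ : Type} {u : σ → κ} (h : ResInd O u) {w : κ}
    (hw : w ∈ IntermediateField.adjoin ℂ (Set.range u)) (h0 : w ≠ 0) : O.valuation w = 1 := by
  rw [IntermediateField.mem_adjoin_range_iff] at hw
  obtain ⟨r, s, hrs⟩ := hw
  have hr : r ≠ 0 := by
    rintro rfl
    apply h0
    rw [hrs, map_zero, zero_div]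
  have hs : s ≠ 0 := by
    rintro rfl
    apply h0
    rw [hrs, map_zero, div_zero]
  rw [hrs, map_div₀, h r hr, h s hs, div_one]

end rho

end Pool.Agent.U220.RD
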