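import Pool.Agent.U220.RD.Ind1

namespace Pool.Agent.U220.RD

open MvPolynomial

section alg

variable {ι κ : Type} [DecidableEq ι] [Field κ] [Algebra ℂ κ] {O : ValuationSubring κ}

/-- the family of the `u i`, `i ∈ T` -/
def fam (u : ι → κ) (T : Finset ι) : {i // i ∈ T} → κ := fun i => u i

/-- the field they generate -/
noncomputable def gf (u : ι → κ) (T : Finset ι) : IntermediateField ℂ κ :=
  IntermediateField.adjoin ℂ (Set.range (fam u T))

lemma algInd_split (u : ι → κ) {S : Finset ι} {e f : ι} (hf : f ∈ S) (hfe : f ≠ e) :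
    AlgebraicIndependent ℂ (fam u (S.erase e)) ↔
      AlgebraicIndependent ℂ (fam u ((S.erase f).erase e)) ∧
        Transcendental (gf u ((S.erase f).erase e)) (u f) := by
  have h1 : (f : ι) ∉ (((S.erase f).erase e : Finset ι) : Set ι) := by simp
  have h2 := AlgebraicIndepOn.insert_iff (R := ℂ) (x := u) h1
  have h3 : insert f (((S.erase f).erase e : Finset ι) : Set ι) = ((S.erase e : Finset ι) : Set ι) := by
    ext x
    simp only [Finset.coe_erase, Set.mem_insert_iff, Set.mem_sdiff, Finset.mem_coe,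
      Set.mem_singleton_iff]
    constructor
    · rintro (h | h)
      · subst h; exact ⟨hf, hfe⟩
      · exact ⟨h.1.1, h.2⟩
    · rintro ⟨h, h'⟩
      by_cases hx : x = f
      · exact Or.inl hx
      · exact Or.inr ⟨⟨h, hx⟩, h'⟩
  rw [h3] at h2
  have h4 : u '' (((S.erase f).erase e : Finset ι) : Set ι) =
      Set.range (fam u ((S.erase f).erase e)) := by
    ext x
    simp only [Set.mem_image, Set.mem_range, fam, Subtype.exists, Finset.mem_coe]
    constructor
    · rintro ⟨i, hi, rfl⟩; exact ⟨i, hi, rfl⟩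
    · rintro ⟨i, hi, rfl⟩; exact ⟨i, hi, rfl⟩
  rw [h4] at h2
  have h5 : Transcendental (gf u ((S.erase f).erase e)) (u f) ↔
      Transcendental (Algebra.adjoin ℂ (Set.range (fam u ((S.erase f).erase e)))) (u f) :=
    IntermediateField.transcendental_adjoin_iff
  rw [h5]
  exact h2

lemma gf_le {u : ι → κ} {T : Finset ι} (h : ResInd O (fam u T)) {w : κ} (hw : w ∈ gf u T) :
    w ∈ O := by
  by_cases h0 : w = 0
  · subst h0; exact O.zero_mem
  · exact (ValuationSubring.valuation_le_one_iff _ _).1 (resInd_adjoin h hw h0).le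

/-- an element `y ≠ 0` with `|y| < 1` is transcendental over a field contained in `O` -/
lemma transc_of_lt (K : IntermediateField ℂ κ) (hK : ∀ x ∈ K, x ∈ O) {y : κ} (hy : y ≠ 0)
    (h : O.valuation y < 1) : Transcendental K y := by
  intro halg
  have h1 : IsIntegral K (y⁻¹) := (IsAlgebraic.inv_iff.2 halg).isIntegral
  obtain ⟨p, hp, hp0⟩ := h1
  let j : K →+* O :=
    { toFun := fun x => ⟨x, hK x x.2⟩
      map_one' := rfl
      map_mul' := fun _ _ => rfl
      map_zero' := rfl
      map_add' := fun _ _ => rfl }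
  have h2 : IsIntegral O (y⁻¹) := by
    refine ⟨p.map j, hp.map j, ?_⟩
    rw [Polynomial.eval₂_map]
    exact hp0
  obtain ⟨x, hx⟩ := (IsIntegrallyClosed.isIntegral_iff (R := O) (K := κ)).1 h2
  have h3 : O.valuation (y⁻¹) ≤ 1 := by
    rw [← hx]
    exact (ValuationSubring.valuation_le_one_iff _ _).2 x.2
  have h4 : O.valuation (y⁻¹ * y) < 1 := by
    rw [map_mul]
    calc O.valuation (y⁻¹) * O.valuation y ≤ 1 * O.valuation y := by gcongr
      _ < 1 := by rwa [one_mul]
  rw [inv_mul_cancel₀ hy, map_one] at h4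
  exact lt_irrefl _ h4

lemma algInd_of_dom (u : ι → κ) {S : Finset ι} {e f : ι} (hf : f ∈ S) (hfe : f ≠ e)
    (h : ResInd O (fam u ((S.erase f).erase e))) (h0 : u f ≠ 0) (h1 : O.valuation (u f) < 1) :
    AlgebraicIndependent ℂ (fam u (S.erase e)) := by
  rw [algInd_split u hf hfe]
  exact ⟨resInd_algInd h, transc_of_lt _ (fun x hx => gf_le h hx) h0 h1⟩

lemma gf_gf (u : ι → κ) {S : Finset ι} {e f : ι} (hf : f ∈ S) (hfe : f ≠ e) :
    (IntermediateField.adjoin (gf u ((S.erase f).erase e)) {u f}).restrictScalars ℂ =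
      gf u (S.erase e) := by
  rw [gf, IntermediateField.adjoin_adjoin_left, gf]
  congr 1
  ext x
  simp only [fam, Set.mem_union, Set.mem_range, Subtype.exists, Finset.mem_erase,
    Set.mem_singleton_iff, exists_prop]
  constructor
  · rintro (⟨i, hi, rfl⟩ | rfl)
    · exact ⟨i, ⟨hi.1, hi.2.2⟩, rfl⟩
    · exact ⟨f, ⟨hfe, hf⟩, rfl⟩
  · rintro ⟨i, hi, rfl⟩
    by_cases h : i = f
    · exact Or.inr (by rw [h])
    · exact Or.inl ⟨i, ⟨hi.1, h, hi.2⟩, rfl⟩

lemma finrank_gf (u : ι → κ) {S : Finset ι} {e f : ι} (hf : f ∈ S) (hfe : f ≠ e) :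
    Module.finrank (gf u (S.erase e)) κ =
      Module.finrank (IntermediateField.adjoin (gf u ((S.erase f).erase e)) {u f}) κ := by
  rw [← gf_gf u hf hfe]
  rfl

lemma findim_gf (u : ι → κ) (T : Finset ι) (h : AlgebraicIndependent ℂ (fam u T))
    (htr : Algebra.trdeg ℂ κ ≤ (T.card : Cardinal)) (G : Set κ) (hG : G.Finite)
    (htop : IntermediateField.adjoin ℂ G = ⊤) : FiniteDimensional (gf u T) κ := by
  have h1 : IsTranscendenceBasis ℂ (fam u T) := by
    refine AlgebraicIndependent.isTranscendenceBasis_of_trdeg_le_of_finite h ?_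
    simpa using htr
  have h2 := h1.isAlgebraic_field
  have h3 : Algebra.IsAlgebraic (gf u T) κ := h2
  have h4 : FiniteDimensional (gf u T) (IntermediateField.adjoin (gf u T) G) := by
    have := hG.to_subtype
    refine IntermediateField.finiteDimensional_adjoin fun x _ => ?_
    exact (Algebra.IsAlgebraic.isAlgebraic x).isIntegral
  have h5 : IntermediateField.adjoin (gf u T) G = ⊤ := by
    rw [eq_top_iff]
    intro x _
    have hx : x ∈ IntermediateField.adjoin ℂ G := by rw [htop]; trivial
    have h6 : IntermediateField.adjoin ℂ G ≤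
        (IntermediateField.adjoin (gf u T) G).restrictScalars ℂ := by
      rw [IntermediateField.adjoin_le_iff]
      exact IntermediateField.subset_adjoin _ _
    exact h6 hx
  rw [h5] at h4
  exact LinearEquiv.finiteDimensional (IntermediateField.topEquiv.toLinearEquiv)

lemma findim_gf' (u : ι → κ) {S : Finset ι} {e f : ι} (hf : f ∈ S) (hfe : f ≠ e)
    (h : FiniteDimensional (gf u (S.erase e)) κ) :
    FiniteDimensional (IntermediateField.adjoin (gf u ((S.erase f).erase e)) {u f}) κ := by
  rw [← gf_gf u hf hfe] at h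
  exact h

end alg

end Pool.Agent.U220.RD
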