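import Pool.Agent.U220.RD.Ind2

namespace Pool.Agent.U220.RD

open MvPolynomial

section lin

variable {ι W : Type} [DecidableEq ι] [AddCommGroup W] [Module ℂ W]

lemma exists_basis (a : ι → W) (S T : Finset ι) (hTS : T ⊆ S)
    (hT : LinearIndependent ℂ (fun b : T => a b)) (hsp : Submodule.span ℂ (a '' (S : Set ι)) = ⊤) :
    ∃ B : Finset ι, T ⊆ B ∧ B ⊆ S ∧ LinearIndependent ℂ (fun b : B => a b) ∧
      Submodule.span ℂ (a '' (B : Set ι)) = ⊤ := by
  have hs : LinearIndepOn ℂ a (T : Set ι) := hT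
  obtain ⟨b, hbS, hTb, hspan, hli⟩ := exists_linearIndepOn_extension hs
    (Finset.coe_subset.2 hTS)
  have hfin : b.Finite := S.finite_toSet.subset hbS
  refine ⟨hfin.toFinset, ?_, ?_, ?_, ?_⟩
  · intro x hx
    simpa using hTb hx
  · intro x hx
    simpa using hbS (by simpa using hx)
  · have : ((hfin.toFinset : Finset ι) : Set ι) = b := by simp
    have h2 : LinearIndepOn ℂ a ((hfin.toFinset : Finset ι) : Set ι) := by rw [this]; exact hli
    exact h2
  · have : ((hfin.toFinset : Finset ι) : Set ι) = b := by simp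
    rw [this, eq_top_iff, ← hsp, Submodule.span_le]
    exact hspan

/-- the basis of `W` given by a basis `B` -/
noncomputable def bas (a : ι → W) (B : Finset ι) (hli : LinearIndependent ℂ (fun b : B => a b))
    (hsp : Submodule.span ℂ (a '' (B : Set ι)) = ⊤) : Module.Basis B ℂ W :=
  Module.Basis.mk hli (by
    rw [← hsp]
    refine Submodule.span_mono ?_
    rintro x ⟨i, hi, rfl⟩
    exact ⟨⟨i, hi⟩, rfl⟩)

lemma bas_apply (a : ι → W) (B : Finset ι) (hli : LinearIndependent ℂ (fun b : B => a b))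
    (hsp : Submodule.span ℂ (a '' (B : Set ι)) = ⊤) (b : B) : bas a B hli hsp b = a b := by
  simp [bas]

variable {k : Type} [Field k] [Algebra ℂ k]

lemma t_mem (a : ι → W) (B : Finset ι) (e : ι)
    (hli : LinearIndependent ℂ (fun b : B => a b))
    (hsp : Submodule.span ℂ (a '' (B : Set ι)) = ⊤) (t : W →ₗ[ℂ] k)
    (hte : t (a e) = 1) (M : Submodule ℂ k) (hM : (1 : k) ∈ M)
    (h1 : ∀ j ∈ B, j ≠ e → t (a j) ∈ M) (w : W) : t w ∈ M := by
  rw [← (bas a B hli hsp).sum_repr w, map_sum]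
  refine sum_mem fun b _ => ?_
  rw [map_smul, bas_apply]
  refine M.smul_mem _ ?_
  by_cases hb : (b : ι) = e
  · rw [hb, hte]; exact hM
  · exact h1 b b.2 hb

lemma z_mem (a : ι → W) (S B : Finset ι) (hBS : B ⊆ S)
    (hli : LinearIndependent ℂ (fun b : B => a b))
    (hsp : Submodule.span ℂ (a '' (B : Set ι)) = ⊤) (z : ι → k)
    (hrel : ∀ ψ : W →ₗ[ℂ] ℂ, ∑ i ∈ S, ψ (a i) • z i = 0)
    (M : Submodule ℂ k)
    (h2 : ∀ j ∈ S, j ∉ B → z j ∈ M) (i : ι) (hi : i ∈ S) : z i ∈ M := by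
  by_cases hiB : i ∈ B
  · have h3 := hrel ((bas a B hli hsp).coord ⟨i, hiB⟩)
    have h4 : ∀ j ∈ B, (bas a B hli hsp).coord ⟨i, hiB⟩ (a j) = if j = i then 1 else 0 := by
      intro j hj
      have : a j = bas a B hli hsp ⟨j, hj⟩ := (bas_apply a B hli hsp ⟨j, hj⟩).symm
      rw [this, Module.Basis.coord_apply, Module.Basis.repr_self, Finsupp.single_apply]
      simp only [Subtype.mk.injEq]
    rw [← Finset.sum_sdiff hBS] at h3
    have h5 : ∑ j ∈ B, (bas a B hli hsp).coord ⟨i, hiB⟩ (a j) • z j = z i := by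
      rw [Finset.sum_congr rfl fun j hj => by rw [h4 j hj]]
      simp [Finset.sum_ite_eq', hiB]
    rw [h5] at h3
    have h6 : z i = - ∑ j ∈ S \ B, (bas a B hli hsp).coord ⟨i, hiB⟩ (a j) • z j := by
      linear_combination h3
    rw [h6]
    refine neg_mem (sum_mem fun j hj => M.smul_mem _ ?_)
    rw [Finset.mem_sdiff] at hj
    exact h2 j hj.1 hj.2
  · exact h2 i hi hiB

lemma rk_of_top (a : ι → W) (S : Finset ι) (hsp : Submodule.span ℂ (a '' (S : Set ι)) = ⊤) :
    rk a S = Module.finrank ℂ W := by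
  rw [rk, hsp, finrank_top]

lemma span_erase_top (a : ι → W) (S : Finset ι) (f : ι)
    (hsp : Submodule.span ℂ (a '' (S : Set ι)) = ⊤)
    (hf : a f ∈ Submodule.span ℂ (a '' ((S.erase f : Finset ι) : Set ι))) :
    Submodule.span ℂ (a '' ((S.erase f : Finset ι) : Set ι)) = ⊤ := by
  rw [eq_top_iff, ← hsp, Submodule.span_le]
  rintro x ⟨i, hi, rfl⟩
  by_cases h : i = f
  · rw [h]; exact hf
  · exact Submodule.subset_span ⟨i, by simpa [h] using hi, rfl⟩

lemma span_con_top (a : ι → W) (S : Finset ι) (f : ι)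
    (hsp : Submodule.span ℂ (a '' (S : Set ι)) = ⊤) :
    Submodule.span ℂ (con a f '' ((S.erase f : Finset ι) : Set ι)) = ⊤ := by
  rw [eq_top_iff]
  intro x _
  obtain ⟨w, rfl⟩ := Submodule.mkQ_surjective _ x
  have hw : w ∈ Submodule.span ℂ (a '' (S : Set ι)) := by rw [hsp]; trivial
  have h1 : (Submodule.span ℂ {a f}).mkQ w ∈
      (Submodule.span ℂ (a '' (S : Set ι))).map (Submodule.span ℂ {a f}).mkQ := ⟨w, hw, rfl⟩
  rw [Submodule.map_span] at h1
  refine Submodule.span_le.2 ?_ h1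
  rintro y ⟨_, ⟨i, hi, rfl⟩, rfl⟩
  by_cases h : i = f
  · subst h
    have : (Submodule.span ℂ {a i}).mkQ (a i) = 0 := by
      rw [Submodule.mkQ_apply, Submodule.Quotient.mk_eq_zero]
      exact Submodule.mem_span_singleton_self _
    simp only [SetLike.mem_coe]
    rw [this]
    exact zero_mem _
  · exact Submodule.subset_span ⟨i, by simpa [h] using hi, rfl⟩

lemma findimW (a : ι → W) (S : Finset ι) (hsp : Submodule.span ℂ (a '' (S : Set ι)) = ⊤) :
    FiniteDimensional ℂ W := by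
  have : (a '' (S : Set ι)).Finite := S.finite_toSet.image _
  exact Module.finite_def.2 ⟨this.toFinset, by rw [Set.Finite.coe_toFinset]; exact hsp⟩

lemma rk_con (a : ι → W) (S : Finset ι) (f : ι)
    (hsp : Submodule.span ℂ (a '' (S : Set ι)) = ⊤) (h0 : a f ≠ 0) :
    rk (con a f) (S.erase f) + 1 = rk a S := by
  have := findimW a S hsp
  rw [rk_of_top _ _ (span_con_top a S f hsp), rk_of_top _ _ hsp]
  have h1 := Submodule.finrank_quotient_add_finrank (Submodule.span ℂ {a f})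
  rw [finrank_span_singleton h0] at h1
  exact h1

/-- contraction of `t` -/
noncomputable def tcon (a : ι → W) (f : ι) (t : W →ₗ[ℂ] k) (h : t (a f) = 0) :
    (W ⧸ Submodule.span ℂ {a f}) →ₗ[ℂ] k :=
  (Submodule.span ℂ {a f}).liftQ t (by
    rw [Submodule.span_singleton_le_iff_mem]
    exact h)

lemma tcon_apply (a : ι → W) (f : ι) (t : W →ₗ[ℂ] k) (h : t (a f) = 0) (i : ι) :
    tcon a f t h (con a f i) = t (a i) := by
  simp [tcon, con]

end lin

end Pool.Agent.U220.RD
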