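import Pool.Agent.U220.RD.Ind3

namespace Pool.Agent.U220.RD

open MvPolynomial

section adj

variable {σ κ k : Type} [Field κ] [Algebra ℂ κ] [Field k] [Algebra ℂ k]

lemma adj_top (u : σ → κ) : IntermediateField.adjoin ℂ (Set.range
    (fun i => (⟨u i, IntermediateField.subset_adjoin ℂ _ ⟨i, rfl⟩⟩ :
      IntermediateField.adjoin ℂ (Set.range u)))) = ⊤ := by
  apply IntermediateField.lift_injective
  rw [IntermediateField.lift_adjoin, IntermediateField.lift_top, ← Set.range_comp]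
  rfl

/-- the field generated by the images -/
lemma range_adj (u : σ → κ) (ψ : IntermediateField.adjoin ℂ (Set.range u) →ₐ[ℂ] k) (v : σ → k)
    (h : ∀ i, ψ ⟨u i, IntermediateField.subset_adjoin ℂ _ ⟨i, rfl⟩⟩ = v i) :
    ψ.fieldRange = IntermediateField.adjoin ℂ (Set.range v) := by
  rw [AlgHom.fieldRange_eq_map, ← adj_top u, IntermediateField.adjoin_map, ← Set.range_comp]
  congr 2
  ext i
  exact h i

/-- a finite family generating a field that contains as many independent elements is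
independent -/
lemma indep_of_contains (hTRB : S_TRB) {σ τ : Type} [Fintype σ] [Fintype τ]
    (hc : Fintype.card σ = Fintype.card τ) (g : σ → k) (v : τ → k)
    (hv : AlgebraicIndependent ℂ v) (hvg : ∀ i, v i ∈ IntermediateField.adjoin ℂ (Set.range g)) :
    AlgebraicIndependent ℂ g := by
  set k1 := IntermediateField.adjoin ℂ (Set.range g) with hk1
  let g1 : σ → k1 := fun i => ⟨g i, IntermediateField.subset_adjoin ℂ _ ⟨i, rfl⟩⟩
  let v1 : τ → k1 := fun i => ⟨v i, hvg i⟩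
  have h1 : AlgebraicIndependent ℂ v1 := by
    have : AlgebraicIndependent ℂ (k1.val ∘ v1) := hv
    exact (k1.val.algebraicIndependent_iff k1.val.injective).1 this
  have h2 : (Fintype.card σ : Cardinal) ≤ Algebra.trdeg ℂ k1 := by
    have := h1.cardinalMk_le_trdeg
    rw [Cardinal.mk_fintype] at this
    rwa [hc]
  have h3 : AlgebraicIndependent ℂ g1 := hTRB σ k1 g1 (adj_top g) h2
  have : AlgebraicIndependent ℂ (k1.val ∘ g1) :=
    (k1.val.algebraicIndependent_iff k1.val.injective).2 h3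
  exact this

end adj

section res

variable {W κ k : Type} [AddCommGroup W] [Module ℂ W] [Field κ] [Algebra ℂ κ] [Field k]
  [Algebra ℂ k] {O : ValuationSubring κ}

/-- residue of the linear map `t` -/
def tres (ρ : O →+* k)
    (hρ : ∀ (c : ℂ) (x : O), (x : κ) = algebraMap ℂ κ c → ρ x = algebraMap ℂ k c)
    (hC : ∀ c : ℂ, algebraMap ℂ κ c ∈ O) (t : W →ₗ[ℂ] κ) (ht : ∀ w, t w ∈ O) : W →ₗ[ℂ] k where
  toFun w := ρ ⟨t w, ht w⟩
  map_add' := by
    intro x y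
    rw [← map_add]
    congr 1
    exact Subtype.ext (map_add t x y)
  map_smul' := by
    intro c x
    have : (⟨t (c • x), ht (c • x)⟩ : O) = ⟨algebraMap ℂ κ c, hC c⟩ * ⟨t x, ht x⟩ := by
      apply Subtype.ext
      change t (c • x) = algebraMap ℂ κ c * t x
      rw [map_smul, Algebra.smul_def]
    rw [this, map_mul, hρ c _ rfl, RingHom.id_apply, Algebra.smul_def]

lemma tres_apply (ρ : O →+* k)
    (hρ : ∀ (c : ℂ) (x : O), (x : κ) = algebraMap ℂ κ c → ρ x = algebraMap ℂ k c)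
    (hC : ∀ c : ℂ, algebraMap ℂ κ c ∈ O) (t : W →ₗ[ℂ] κ) (ht : ∀ w, t w ∈ O) (w : W) :
    tres ρ hρ hC t ht w = ρ ⟨t w, ht w⟩ := rfl

open Classical in
/-- residue -/
noncomputable def rs (ρ : O →+* k) (x : κ) : k := if h : x ∈ O then ρ ⟨x, h⟩ else 0

lemma rs_coe (ρ : O →+* k) (x : O) : rs ρ (x : κ) = ρ x := by
  rw [rs, dif_pos x.2]

lemma rs_mem (ρ : O →+* k) {x : κ} (h : x ∈ O) : rs ρ x = ρ ⟨x, h⟩ := by
  rw [rs, dif_pos h]

lemma rs_zero (ρ : O →+* k) (hs : Function.Surjective ρ) {x : κ} (h : O.valuation x < 1) :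
    rs ρ x = 0 := by
  have hx : x ∈ O := (ValuationSubring.valuation_le_one_iff _ _).1 h.le
  rw [rs_mem ρ hx]
  exact (rho_zero ρ hs ⟨x, hx⟩).2 h

lemma rel_res {ι : Type} (ρ : O →+* k)
    (hρ : ∀ (c : ℂ) (x : O), (x : κ) = algebraMap ℂ κ c → ρ x = algebraMap ℂ k c)
    (hC : ∀ c : ℂ, algebraMap ℂ κ c ∈ O) (a : ι → W) (S : Finset ι) (z : ι → κ)
    (hz : ∀ i ∈ S, z i ∈ O)
    (hrel : ∀ ψ : W →ₗ[ℂ] ℂ, ∑ i ∈ S, ψ (a i) • z i = 0) (ψ : W →ₗ[ℂ] ℂ) :
    ∑ i ∈ S, ψ (a i) • rs ρ (z i) = 0 := by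
  have h1 : ∀ i ∈ S, ψ (a i) • rs ρ (z i) = rs ρ (ψ (a i) • z i) := by
    intro i hi
    have h2 : ψ (a i) • z i = ((⟨algebraMap ℂ κ (ψ (a i)), hC _⟩ * ⟨z i, hz i hi⟩ : O) : κ) := by
      rw [Algebra.smul_def]; rfl
    rw [h2, rs_coe, map_mul, hρ (ψ (a i)) _ rfl, rs_mem ρ (hz i hi), Algebra.smul_def]
  rw [Finset.sum_congr rfl h1]
  have h3 : ∀ T ⊆ S, (∑ i ∈ T, ψ (a i) • z i) ∈ O ∧
      ∑ i ∈ T, rs ρ (ψ (a i) • z i) = rs ρ (∑ i ∈ T, ψ (a i) • z i) := by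
    classical
    intro T
    induction T using Finset.induction_on with
    | empty =>
      intro _
      simp only [Finset.sum_empty]
      refine ⟨O.zero_mem, ?_⟩
      rw [rs_mem ρ O.zero_mem]
      exact (map_zero ρ).symm
    | insert i T hi ih =>
      intro hT
      have hT' := ih ((Finset.subset_insert _ _).trans hT)
      have hiS : i ∈ S := hT (Finset.mem_insert_self _ _)
      have h4 : ψ (a i) • z i ∈ O := by
        rw [Algebra.smul_def]
        exact O.mul_mem _ _ (hC _) (hz i hiS)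
      rw [Finset.sum_insert hi, Finset.sum_insert hi, hT'.2]
      refine ⟨O.add_mem _ _ h4 hT'.1, ?_⟩
      rw [rs_mem ρ h4, rs_mem ρ hT'.1, rs_mem ρ (O.add_mem _ _ h4 hT'.1), ← map_add]
      rfl
  rw [(h3 S subset_rfl).2, hrel ψ, rs_mem ρ O.zero_mem]
  exact map_zero ρ

lemma uu_res {ι : Type} (ρ : O →+* k)
    (hρ : ∀ (c : ℂ) (x : O), (x : κ) = algebraMap ℂ κ c → ρ x = algebraMap ℂ k c)
    (hC : ∀ c : ℂ, algebraMap ℂ κ c ∈ O) (a : ι → W) (z : ι → κ) (t : W →ₗ[ℂ] κ)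
    (ht : ∀ w, t w ∈ O) (i : ι) (hz : z i ∈ O) :
    uu a (tres ρ hρ hC t ht) (fun i => rs ρ (z i)) i = rs ρ (uu a t z i) := by
  have h2 : uu a t z i = ((⟨z i, hz⟩ * ⟨t (a i), ht _⟩ ^ 2 : O) : κ) := by
    rw [uu]; rfl
  rw [h2, rs_coe, map_mul, map_pow, uu, rs_mem ρ hz]
  rfl

end res

end Pool.Agent.U220.RD
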