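import Pool.Agent.U220.RD.Ind4

namespace Pool.Agent.U220.RD

open MvPolynomial

section loc

variable {ι W κ : Type} [DecidableEq ι] [AddCommGroup W] [Module ℂ W] [Field κ] [Algebra ℂ κ]

/-- coordinates -/
def gB (a : ι → W) (S : Finset ι) (e : ι) (B : Finset ι) (t : W →ₗ[ℂ] κ) (z : ι → κ) :
    {j // j ∈ S.erase e} → κ := fun j => if (j : ι) ∈ B then t (a j) else z j

/-- `O` as a module -/
def oMod (O : ValuationSubring κ) (hC : ∀ c : ℂ, algebraMap ℂ κ c ∈ O) : Submodule ℂ κ where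
  carrier := O
  add_mem' := fun h1 h2 => O.add_mem _ _ h1 h2
  zero_mem' := O.zero_mem
  smul_mem' := by
    intro c x hx
    rw [Algebra.smul_def]
    exact O.mul_mem _ _ (hC c) hx

lemma mem_oMod (O : ValuationSubring κ) (hC : ∀ c : ℂ, algebraMap ℂ κ c ∈ O) (x : κ) :
    x ∈ oMod O hC ↔ x ∈ O := Iff.rfl

lemma all_mem (O : ValuationSubring κ) (hC : ∀ c : ℂ, algebraMap ℂ κ c ∈ O) (a : ι → W)
    (S : Finset ι) (hsp : Submodule.span ℂ (a '' (S : Set ι)) = ⊤) (t : W →ₗ[ℂ] κ)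
    (h : ∀ i ∈ S, t (a i) ∈ O) (w : W) : t w ∈ O := by
  have h1 : Submodule.span ℂ (a '' (S : Set ι)) ≤ (oMod O hC).comap t := by
    rw [Submodule.span_le]
    rintro x ⟨i, hi, rfl⟩
    exact h i hi
  rw [hsp] at h1
  exact h1 trivial

lemma trdeg_of {σ k : Type} [Fintype σ] [Field k] [Algebra ℂ k] (g : σ → k)
    (hg : AlgebraicIndependent ℂ g) (ht : IntermediateField.adjoin ℂ (Set.range g) = ⊤) :
    Algebra.trdeg ℂ k = Fintype.card σ := by
  have h1 : Algebra.IsAlgebraic (IntermediateField.adjoin ℂ (Set.range g)) k := by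
    rw [ht]
    constructor
    intro x
    exact isAlgebraic_algebraMap (R := (⊤ : IntermediateField ℂ k)) ⟨x, trivial⟩
  have h2 : IsTranscendenceBasis ℂ g :=
    isTranscendenceBasis_iff_algebraicIndependent_isAlgebraic.2
      ⟨hg, IntermediateField.isAlgebraic_adjoin_iff_top.1 h1⟩
  rw [← h2.cardinalMk_eq_trdeg, Cardinal.mk_fintype]

lemma card_aux (S : Finset ι) (e f : ι) (hf : f ∈ S.erase e) :
    Fintype.card {j : {j // j ∈ S.erase e} // j ≠ ⟨f, hf⟩} = ((S.erase f).erase e).card := by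
  classical
  rw [Fintype.card_subtype_compl, Fintype.card_subtype_eq, Fintype.card_coe,
    Finset.erase_right_comm, Finset.card_erase_of_mem hf]

end loc

end Pool.Agent.U220.RD
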