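import Pool.Agent.U220.RD.Ind5

namespace Pool.Agent.U220.RD

open MvPolynomial

section loc

variable {ι W κ : Type} [DecidableEq ι] [AddCommGroup W] [Module ℂ W] [Field κ] [Algebra ℂ κ]

/-- the subspace of `k` underlying a field generated by a family -/
noncomputable def fMod {k : Type} [Field k] [Algebra ℂ k] (M : IntermediateField ℂ k) :
    Submodule ℂ k := M.toSubalgebra.toSubmodule

lemma mem_fMod {k : Type} [Field k] [Algebra ℂ k] (M : IntermediateField ℂ k) (x : k) :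
    x ∈ fMod M ↔ x ∈ M := Iff.rfl

lemma dom (hTRB : S_TRB) (a : ι → W) (S B : Finset ι) (e f : ι) (t : W →ₗ[ℂ] κ) (z : ι → κ)
    (hte : t (a e) = 1) (hrel : ∀ ψ : W →ₗ[ℂ] ℂ, ∑ i ∈ S, ψ (a i) • z i = 0)
    (hf : f ∈ S.erase e) (heB : e ∈ B) (hBS : B ⊆ S)
    (hli : LinearIndependent ℂ (fun b : B => a b))
    (hsp : Submodule.span ℂ (a '' (B : Set ι)) = ⊤)
    (O : ValuationSubring κ) (hO : ∀ i ∈ S, t (a i) ∈ O ∧ z i ∈ O)
    (hr : ResInd O (fam (uu a t z) ((S.erase f).erase e)))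
    (hv : O.valuation (gB a S e B t z ⟨f, hf⟩) < 1) :
    ResInd O (fun j : {j : {j // j ∈ S.erase e} // j ≠ ⟨f, hf⟩} => gB a S e B t z j) := by
  have hC : ∀ c : ℂ, algebraMap ℂ κ c ∈ O := resInd_const hr
  let k := IsLocalRing.ResidueField O
  let _ : Algebra ℂ k := ((IsLocalRing.residue O).comp (cHom O hC)).toAlgebra
  let ρ : O →+* k := IsLocalRing.residue O
  have hs : Function.Surjective ρ := IsLocalRing.residue_surjective
  have hρ : ∀ (c : ℂ) (x : O), (x : κ) = algebraMap ℂ κ c → ρ x = algebraMap ℂ k c := by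
    intro c x hx
    have : x = cHom O hC c := Subtype.ext hx
    rw [this]
    rfl
  have hspS : Submodule.span ℂ (a '' (S : Set ι)) = ⊤ := by
    rw [eq_top_iff, ← hsp]
    exact Submodule.span_mono (Set.image_mono (Finset.coe_subset.2 hBS))
  have ht : ∀ w, t w ∈ O := all_mem O hC a S hspS t fun i hi => (hO i hi).1
  have hg : ∀ j : {j // j ∈ S.erase e}, gB a S e B t z j ∈ O := by
    intro j
    have hj : (j : ι) ∈ S := Finset.mem_of_mem_erase j.2
    unfold gB
    split_ifs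
    · exact ht _
    · exact (hO j hj).2
  let G : {j : {j // j ∈ S.erase e} // j ≠ ⟨f, hf⟩} → O := fun j => ⟨gB a S e B t z j, hg j⟩
  have hG := resInd_iff hC G ρ hs hρ
  change ResInd O (fun j : {j : {j // j ∈ S.erase e} // j ≠ ⟨f, hf⟩} => gB a S e B t z j) ↔ _ at hG
  rw [hG]
  have hU : ∀ i : {i // i ∈ (S.erase f).erase e}, uu a t z i ∈ O := by
    intro i
    have hi : (i : ι) ∈ S := Finset.mem_of_mem_erase (Finset.mem_of_mem_erase i.2)
    exact O.mul_mem _ _ (hO i hi).2 (O.pow_mem (ht _) 2)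
  let U : {i // i ∈ (S.erase f).erase e} → O := fun i => ⟨uu a t z i, hU i⟩
  have h1 : AlgebraicIndependent ℂ (fun i => ρ (U i)) := (resInd_iff hC U ρ hs hρ).1 hr
  refine indep_of_contains hTRB ?_ (fun j => ρ (G j)) (fun i => ρ (U i)) h1 ?_
  · rw [card_aux S e f hf, Fintype.card_coe]
  · intro i
    set M := IntermediateField.adjoin ℂ (Set.range fun j => ρ (G j)) with hM
    -- values of the residues
    let t' := tres ρ hρ hC t ht
    let z' : ι → k := fun i => rs ρ (z i)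
    have hGf : ∀ j (hj : j ∈ S.erase e), rs ρ (gB a S e B t z ⟨j, hj⟩) ∈ fMod M := by
      intro j hj
      by_cases hjf : j = f
      · subst hjf
        rw [rs_zero ρ hs hv]
        exact zero_mem _
      · have : (⟨j, hj⟩ : {j // j ∈ S.erase e}) ≠ ⟨f, hf⟩ := by
          intro h; exact hjf (congrArg Subtype.val h)
        rw [rs_mem ρ (hg ⟨j, hj⟩)]
        exact IntermediateField.subset_adjoin ℂ _ ⟨⟨⟨j, hj⟩, this⟩, rfl⟩
    have ht' : ∀ w, t' w ∈ fMod M := by
      refine t_mem a B e hli hsp t' ?_ (fMod M) (one_mem M) ?_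
      · change ρ ⟨t (a e), _⟩ = 1
        have : (⟨t (a e), ht (a e)⟩ : O) = 1 := Subtype.ext hte
        rw [this, map_one]
      · intro j hjB hje
        have hj : j ∈ S.erase e := Finset.mem_erase.2 ⟨hje, hBS hjB⟩
        have h2 := hGf j hj
        have h3 : gB a S e B t z ⟨j, hj⟩ = t (a j) := by simp [gB, hjB]
        rw [h3, rs_mem ρ (ht _)] at h2
        exact h2
    have hz' : ∀ i ∈ S, z' i ∈ fMod M := by
      refine z_mem a S B hBS hli hsp z' ?_ (fMod M) ?_
      · exact rel_res ρ hρ hC a S z (fun i hi => (hO i hi).2) hrel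
      · intro j hjS hjB
        have hje : j ≠ e := fun h => hjB (h ▸ heB)
        have hj : j ∈ S.erase e := Finset.mem_erase.2 ⟨hje, hjS⟩
        have h2 := hGf j hj
        have h3 : gB a S e B t z ⟨j, hj⟩ = z j := by simp [gB, hjB]
        rw [h3] at h2
        exact h2
    have hi : (i : ι) ∈ S := Finset.mem_of_mem_erase (Finset.mem_of_mem_erase i.2)
    have h4 : ρ (U i) = uu a t' z' i := by
      have := uu_res ρ hρ hC a z t ht i (hO i hi).2
      rw [rs_mem ρ (hU i)] at this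
      exact this.symm
    rw [h4]
    exact M.mul_mem (hz' i hi) (pow_mem (show t' (a i) ∈ M from ht' _) 2)

/-- everything about the coordinate valuation of `g f` -/
lemma localData (hTRB : S_TRB) (hGENB : S_GENB) (hCEX : S_CEX) (hCST : S_CST) (hRES : S_RES)
    (a : ι → W) (S B : Finset ι) (e f : ι) (t : W →ₗ[ℂ] κ) (z : ι → κ)
    (hGen : Gen a S e t z) (hf : f ∈ S.erase e) (heB : e ∈ B) (hBS : B ⊆ S)
    (hli : LinearIndependent ℂ (fun b : B => a b))
    (hsp : Submodule.span ℂ (a '' (B : Set ι)) = ⊤) :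
    ∃ (O : ValuationSubring κ) (k : Type) (_ : Field k) (_ : Algebra ℂ k) (ρ : O →+* k)
      (_ : Function.Surjective ρ)
      (hρ : ∀ (c : ℂ) (x : O), (x : κ) = algebraMap ℂ κ c → ρ x = algebraMap ℂ k c)
      (hC : ∀ c : ℂ, algebraMap ℂ κ c ∈ O) (ht : ∀ w, t w ∈ O),
      (∀ i ∈ S, z i ∈ O) ∧ gB a S e B t z ⟨f, hf⟩ ≠ 0 ∧
      ResInd O (fun j : {j : {j // j ∈ S.erase e} // j ≠ ⟨f, hf⟩} => gB a S e B t z j) ∧
      O.valuation (gB a S e B t z ⟨f, hf⟩) < 1 ∧
      (∀ x, O.valuation x < 1 → x / gB a S e B t z ⟨f, hf⟩ ∈ O) ∧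
      IntermediateField.adjoin ℂ
        ((fun i => tres ρ hρ hC t ht (a i)) '' ((S.erase f : Finset ι) : Set ι) ∪
          (fun i => rs ρ (z i)) '' ((S.erase f : Finset ι) : Set ι)) = ⊤ ∧
      Algebra.trdeg ℂ k + 1 = ((S.erase f).card : Cardinal) ∧
      ∀ O' : ValuationSubring κ, (∀ i ∈ S, t (a i) ∈ O' ∧ z i ∈ O') →
        ResInd O' (fam (uu a t z) ((S.erase f).erase e)) →
        O'.valuation (gB a S e B t z ⟨f, hf⟩) < 1 → O' = O := by
  obtain ⟨hg, htop⟩ := hGENB ι W κ a S e t z hGen B heB hBS hli hsp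
  change AlgebraicIndependent ℂ (gB a S e B t z) at hg
  change IntermediateField.adjoin ℂ (Set.range (gB a S e B t z)) = ⊤ at htop
  obtain ⟨O, hO1, hO2⟩ := hCEX _ κ (gB a S e B t z) ⟨f, hf⟩ hg
  obtain ⟨hc1, hc2, hc3⟩ := hCST _ κ (gB a S e B t z) ⟨f, hf⟩ hg htop O hO1 hO2
  obtain ⟨k, _, _, ρ, hs, hρ, hres⟩ := hRES _ κ (gB a S e B t z) ⟨f, hf⟩ hg htop O hO1 hO2
  have hC : ∀ c : ℂ, algebraMap ℂ κ c ∈ O := resInd_const hO1
  have hgO : ∀ j, gB a S e B t z j ∈ O := by
    intro j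
    by_cases hj : j = ⟨f, hf⟩
    · rw [hj]; exact (ValuationSubring.valuation_le_one_iff _ _).1 hO2.le
    · have h1 := hO1 (X ⟨j, hj⟩) (X_ne_zero _)
      rw [aeval_X] at h1
      exact (ValuationSubring.valuation_le_one_iff _ _).1 h1.le
  have ht : ∀ w, t w ∈ O := by
    refine t_mem a B e hli hsp t hGen.te (oMod O hC) ?_ ?_
    · exact O.one_mem
    · intro j hjB hje
      have hj : j ∈ S.erase e := Finset.mem_erase.2 ⟨hje, hBS hjB⟩
      have h2 := hgO ⟨j, hj⟩
      have h3 : gB a S e B t z ⟨j, hj⟩ = t (a j) := by simp [gB, hjB]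
      rw [h3] at h2
      exact h2
  have hz : ∀ i ∈ S, z i ∈ O := by
    refine z_mem a S B hBS hli hsp z hGen.rel (oMod O hC) ?_
    intro j hjS hjB
    have hje : j ≠ e := fun h => hjB (h ▸ heB)
    have hj : j ∈ S.erase e := Finset.mem_erase.2 ⟨hje, hjS⟩
    have h2 := hgO ⟨j, hj⟩
    have h3 : gB a S e B t z ⟨j, hj⟩ = z j := by simp [gB, hjB]
    rw [h3] at h2
    exact h2
  have hg0 : gB a S e B t z ⟨f, hf⟩ ≠ 0 := by
    have := hg.ne_zero ⟨f, hf⟩
    exact this
  obtain ⟨hind, hgen⟩ := hres (fun j => ⟨gB a S e B t z j, hgO j⟩) (fun j => rfl)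
  refine ⟨O, k, _, _, ρ, hs, hρ, hC, ht, hz, hg0, hO1, hO2, ?_, ?_, ?_, ?_⟩
  · intro x hx
    by_cases hx0 : x = 0
    · subst hx0
      rw [zero_div]
      exact O.zero_mem
    · obtain ⟨m, w, hw, hw0, h1, h2⟩ := hc2 x hx0
      set π := gB a S e B t z ⟨f, hf⟩ with hπ
      have hxm : O.valuation x = O.valuation π ^ m := by
        rw [map_div₀, map_zpow₀] at h1
        have hne : O.valuation π ^ m ≠ 0 := zpow_ne_zero _ ((map_ne_zero _).2 hg0)
        exact (div_eq_one_iff_eq hne).1 h1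
      have hπ1 : O.valuation π ≤ 1 := hO2.le
      have hπ0 : 0 < O.valuation π := zero_lt_iff.2 ((map_ne_zero _).2 hg0)
      have hm : 1 ≤ m := by
        by_contra hm
        have hm' : m ≤ 0 := by omega
        have : 1 ≤ O.valuation π ^ m := one_le_zpow_of_nonpos₀ hπ0 hπ1 hm'
        rw [← hxm] at this
        exact absurd hx (not_lt.2 this)
      rw [← ValuationSubring.valuation_le_one_iff, map_div₀, hxm, div_eq_mul_inv,
        ← zpow_sub_one₀ hπ0.ne']
      exact zpow_le_one₀ hπ0 hπ1 (by omega) 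
  · rw [eq_top_iff, ← hgen, IntermediateField.adjoin_le_iff]
    rintro _ ⟨j, rfl⟩
    obtain ⟨⟨j, hj⟩, hjf⟩ := j
    have hjf' : j ≠ f := fun h => hjf (Subtype.ext h)
    have hjS : j ∈ ((S.erase f : Finset ι) : Set ι) := by
      rw [Finset.mem_coe, Finset.mem_erase]
      exact ⟨hjf', Finset.mem_of_mem_erase hj⟩
    refine IntermediateField.subset_adjoin ℂ _ ?_
    by_cases hjB : j ∈ B
    · left
      refine ⟨j, hjS, ?_⟩
      change ρ ⟨t (a j), _⟩ = ρ ⟨gB a S e B t z ⟨j, hj⟩, _⟩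
      congr 1
      apply Subtype.ext
      simp [gB, hjB]
    · right
      refine ⟨j, hjS, ?_⟩
      change rs ρ (z j) = ρ ⟨gB a S e B t z ⟨j, hj⟩, _⟩
      rw [rs_mem ρ (hz j (Finset.mem_of_mem_erase hj))]
      congr 1
      apply Subtype.ext
      simp [gB, hjB]
  · rw [trdeg_of _ hind hgen, card_aux S e f hf]
    have he : e ∈ S.erase f := by
      rw [Finset.mem_erase]
      exact ⟨fun h => (Finset.mem_erase.1 hf).1 h.symm, hGen.mem⟩
    have h1 := Finset.card_erase_add_one he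
    exact_mod_cast h1
  · intro O' hO' hr' hv'
    refine hc3 O' ?_ hv'
    exact dom hTRB a S B e f t z hGen.te hGen.rel hf heB hBS hli hsp O' hO' hr' hv'

end loc

end Pool.Agent.U220.RD
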