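import Pool.Agent.U220.RD.Ind6

namespace Pool.Agent.U220.RD

open MvPolynomial

section parts

/-- the inclusion of the field in the valuation ring -/
def jHom {κ : Type} [Field κ] [Algebra ℂ κ] (O : ValuationSubring κ) (K : IntermediateField ℂ κ)
    (h : ∀ x ∈ K, x ∈ O) : K →+* O where
  toFun x := ⟨x, h x x.2⟩
  map_one' := rfl
  map_mul' _ _ := rfl
  map_zero' := rfl
  map_add' _ _ := rfl

lemma finrank_res {σ κ k : Type} [Field κ] [Algebra ℂ κ] [Field k] [Algebra ℂ k]
    (O : ValuationSubring κ) (u : σ → κ) (v : σ → k) (ρ : O →+* k)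
    (hρ : ∀ (c : ℂ) (x : O), (x : κ) = algebraMap ℂ κ c → ρ x = algebraMap ℂ k c)
    (hK : ∀ x ∈ IntermediateField.adjoin ℂ (Set.range u), x ∈ O)
    (hv : ∀ i (h : u i ∈ O), ρ ⟨u i, h⟩ = v i) :
    @Module.finrank (IntermediateField.adjoin ℂ (Set.range u)) k _ _
      (RingHom.toAlgebra (ρ.comp (jHom O _ hK))).toModule =
      Module.finrank (IntermediateField.adjoin ℂ (Set.range v)) k := by
  let ψ : IntermediateField.adjoin ℂ (Set.range u) →ₐ[ℂ] k :=
    { ρ.comp (jHom O _ hK) with
      commutes' := fun c => hρ c _ rfl }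
  have h1 : ψ.fieldRange = IntermediateField.adjoin ℂ (Set.range v) :=
    range_adj u ψ v fun i => hv i (hK _ (IntermediateField.subset_adjoin ℂ _ ⟨i, rfl⟩))
  rw [← h1]
  let _ : Algebra (IntermediateField.adjoin ℂ (Set.range u)) k :=
    RingHom.toAlgebra (ρ.comp (jHom O _ hK))
  let e1 : IntermediateField.adjoin ℂ (Set.range u) ≃+* ψ.fieldRange :=
    RingEquiv.ofBijective (ψ.toRingHom.codRestrict ψ.fieldRange fun x => ⟨x, rfl⟩) ⟨by
      intro x y hxy
      exact ψ.injective (congrArg Subtype.val hxy), by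
      rintro ⟨_, x, rfl⟩
      exact ⟨x, rfl⟩⟩
  refine Algebra.finrank_eq_of_equiv_equiv e1 (RingEquiv.refl k) ?_
  ext x
  rfl

variable {ι W κ : Type} [DecidableEq ι] [AddCommGroup W] [Module ℂ W] [Field κ] [Algebra ℂ κ]

/-- the statement to be proved, for one generic pair -/
def Good (a : ι → W) (S : Finset ι) (e : ι) (t : W →ₗ[ℂ] κ) (z : ι → κ) : Prop :=
  (AlgebraicIndependent ℂ (fam (uu a t z) (S.erase e)) →
      (Module.finrank (gf (uu a t z) (S.erase e)) κ : ℤ) * 2 = 2 ^ rk a S * beta a S) ∧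
    (¬ AlgebraicIndependent ℂ (fam (uu a t z) (S.erase e)) → beta a S = 0)

/-- data at one valuation -/
def At (a : ι → W) (S : Finset ι) (e f : ι) (t : W →ₗ[ℂ] κ) (z : ι → κ)
    (O : ValuationSubring κ) (r s : ℕ) : Prop :=
  ResInd O (fam (uu a t z) ((S.erase f).erase e)) ∧ O.valuation (uu a t z f) < 1 ∧
    (∃ π : κ, π ≠ 0 ∧ O.valuation π < 1 ∧ (∀ x : κ, O.valuation x < 1 → x / π ∈ O) ∧
        O.valuation (uu a t z f) = O.valuation π ^ r) ∧
    (∃ (k : Type) (_ : Field k) (ρ : O →+* k) (j : gf (uu a t z) ((S.erase f).erase e) →+* O),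
        Function.Surjective ρ ∧ (∀ x, ((j x : O) : κ) = x) ∧
        @Module.finrank (gf (uu a t z) ((S.erase f).erase e)) k _ _
          (RingHom.toAlgebra (ρ.comp j)).toModule = s)

lemma partD (hTRB : S_TRB) (hGENB : S_GENB) (hCEX : S_CEX) (hCST : S_CST) (hRES : S_RES)
    (a : ι → W) (S : Finset ι) (e f : ι) (t : W →ₗ[ℂ] κ) (z : ι → κ)
    (hGen : Gen a S e t z) (hf : f ∈ S.erase e)
    (hfs : a f ∈ Submodule.span ℂ (a '' ((S.erase f : Finset ι) : Set ι)))
    (htf : t (a f) ≠ 0)
    (IH : ∀ (k : Type) [Field k] [Algebra ℂ k] (t' : W →ₗ[ℂ] k) (z' : ι → k),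
      Gen a (S.erase f) e t' z' → Good a (S.erase f) e t' z') :
    ∃ (V : Finset (ValuationSubring κ)) (s : ℕ), V.card ≤ 1 ∧
      (∀ O ∈ V, At a S e f t z O 1 s ∧ O.valuation (t (a f)) = 1) ∧
      (∀ O : ValuationSubring κ, (∀ i ∈ S, t (a i) ∈ O ∧ z i ∈ O) →
        ResInd O (fam (uu a t z) ((S.erase f).erase e)) → O.valuation (z f) < 1 → O ∈ V) ∧
      (V.card : ℤ) * (s * 2) = 2 ^ rk a S * beta a (S.erase f) := by
  classical
  have hfe : f ≠ e := (Finset.mem_erase.1 hf).1
  have hfS : f ∈ S := (Finset.mem_erase.1 hf).2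
  have hsp' := span_erase_top a S f hGen.sp hfs
  have he0 : a e ≠ 0 := by
    intro h
    have := hGen.te
    rw [h, map_zero] at this
    exact zero_ne_one this
  have heS : e ∈ S.erase f := Finset.mem_erase.2 ⟨hfe.symm, hGen.mem⟩
  obtain ⟨B, heB', hBS', hli, hsp⟩ := exists_basis a (S.erase f) {e}
    (Finset.singleton_subset_iff.2 heS) (by
      have : LinearIndepOn ℂ a (({e} : Finset ι) : Set ι) := by
        rw [Finset.coe_singleton, linearIndepOn_singleton_iff]
        exact he0
      exact this) hsp'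
  have heB : e ∈ B := heB' (Finset.mem_singleton_self e)
  have hfB : f ∉ B := fun h => (Finset.mem_erase.1 (hBS' h)).1 rfl
  have hBS : B ⊆ S := hBS'.trans (Finset.erase_subset _ _)
  obtain ⟨O, k, _, _, ρ, hs, hρ, hC, ht, hz, hg0, hO1, hO2, hdiv, htop, htr, huniq⟩ :=
    localData hTRB hGENB hCEX hCST hRES a S B e f t z hGen hf heB hBS hli hsp
  have hgf : gB a S e B t z ⟨f, hf⟩ = z f := by simp [gB, hfB]
  rw [hgf] at hg0 hO2 hdiv huniq
  set t' := tres ρ hρ hC t ht with ht'
  set z' : ι → k := fun i => rs ρ (z i) with hz'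
  have hGen' : Gen a (S.erase f) e t' z' := by
    refine ⟨heS, hsp', ?_, ?_, htop, htr⟩
    · change ρ ⟨t (a e), _⟩ = 1
      have : (⟨t (a e), ht (a e)⟩ : O) = 1 := Subtype.ext hGen.te
      rw [this, map_one]
    · intro ψ
      have h1 := rel_res ρ hρ hC a S z hz hGen.rel ψ
      rw [← Finset.add_sum_erase S _ hfS, rs_zero ρ hs hO2, smul_zero, zero_add] at h1
      exact h1
  have hgood := IH k t' z' hGen'
  have hU : ∀ i ∈ S, uu a t z i ∈ O := by
    intro i hi
    exact O.mul_mem _ _ (hz i hi) (O.pow_mem (ht _) 2)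
  have hmem : ∀ i : {i // i ∈ (S.erase f).erase e}, (i : ι) ∈ S := fun i =>
    Finset.mem_of_mem_erase (Finset.mem_of_mem_erase i.2)
  have hdom : ResInd O (fam (uu a t z) ((S.erase f).erase e)) ↔
      AlgebraicIndependent ℂ (fam (uu a t' z') ((S.erase f).erase e)) := by
    have h1 := resInd_iff hC (fun i : {i // i ∈ (S.erase f).erase e} =>
      (⟨uu a t z i, hU i (hmem i)⟩ : O)) ρ hs hρ
    have h2 : (fun i : {i // i ∈ (S.erase f).erase e} => ρ ⟨uu a t z i, hU i (hmem i)⟩) =
        fam (uu a t' z') ((S.erase f).erase e) := by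
      funext i
      have := uu_res ρ hρ hC a z t ht i (hz i (hmem i))
      rw [rs_mem ρ (hU i (hmem i))] at this
      exact this.symm
    rw [h2] at h1
    exact h1
  have hvt : O.valuation (t (a f)) = 1 := by
    refine resInd_adjoin hO1 ?_ htf
    refine t_mem a B e hli hsp t hGen.te (fMod (IntermediateField.adjoin ℂ (Set.range
      (fun j : {j : {j // j ∈ S.erase e} // j ≠ ⟨f, hf⟩} => gB a S e B t z j))))
      (IntermediateField.one_mem _) ?_ _
    intro j hjB hje
    have hj : j ∈ S.erase e := Finset.mem_erase.2 ⟨hje, hBS hjB⟩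
    have hjf : (⟨j, hj⟩ : {j // j ∈ S.erase e}) ≠ ⟨f, hf⟩ := by
      intro h
      have h3 : j = f := congrArg Subtype.val h
      exact hfB (h3 ▸ hjB)
    refine IntermediateField.subset_adjoin ℂ _ ⟨⟨⟨j, hj⟩, hjf⟩, ?_⟩
    simp [gB, hjB]
  by_cases hD : ResInd O (fam (uu a t z) ((S.erase f).erase e))
  · refine ⟨{O}, Module.finrank (gf (uu a t' z') ((S.erase f).erase e)) k, by simp, ?_, ?_, ?_⟩
    · intro O' hO'
      rw [Finset.mem_singleton] at hO'
      subst hO'
      refine ⟨⟨hD, ?_, ⟨z f, hg0, hO2, hdiv, ?_⟩, ?_⟩, hvt⟩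
      · rw [uu, map_mul, map_pow, hvt, one_pow, mul_one]
        exact hO2
      · rw [uu, map_mul, map_pow, hvt, one_pow, mul_one, pow_one]
      · refine ⟨k, _, ρ, jHom O' _ fun x hx => gf_le hD hx, hs, fun x => rfl, ?_⟩
        refine finrank_res O' (fam (uu a t z) ((S.erase f).erase e))
          (fam (uu a t' z') ((S.erase f).erase e)) ρ hρ _ ?_
        intro i h
        have := uu_res ρ hρ hC a z t ht i (hz i (hmem i))
        rw [rs_mem ρ (hU i (hmem i))] at this
        exact this.symm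
    · intro O' h1 h2 h3
      rw [Finset.mem_singleton]
      exact huniq O' h1 h2 h3
    · have h1 := hgood.1 (hdom.1 hD)
      rw [Finset.card_singleton, Nat.cast_one, one_mul, h1, rk_of_top a _ hsp',
        rk_of_top a _ hGen.sp]
  · refine ⟨∅, 0, by simp, by simp, ?_, ?_⟩
    · intro O' h1 h2 h3
      have := huniq O' h1 h2 h3
      subst this
      exact absurd h2 hD
    · have h1 := hgood.2 (fun h => hD (hdom.2 h))
      rw [h1]
      simp

lemma partC (hTRB : S_TRB) (hGENB : S_GENB) (hCEX : S_CEX) (hCST : S_CST) (hRES : S_RES)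
    (hLOOP : S_BLOOP)
    (a : ι → W) (S : Finset ι) (e f : ι) (t : W →ₗ[ℂ] κ) (z : ι → κ)
    (hGen : Gen a S e t z) (hf : f ∈ S.erase e) (hf0 : a f ≠ 0)
    (hzf : z f ≠ 0)
    (IH : ∀ (k : Type) [Field k] [Algebra ℂ k] (t' : (W ⧸ Submodule.span ℂ {a f}) →ₗ[ℂ] k)
      (z' : ι → k), Gen (con a f) (S.erase f) e t' z' → Good (con a f) (S.erase f) e t' z') :
    ∃ (V : Finset (ValuationSubring κ)) (s : ℕ), V.card ≤ 1 ∧
      (∀ O ∈ V, At a S e f t z O 2 s ∧ O.valuation (t (a f)) < 1) ∧
      (∀ O : ValuationSubring κ, (∀ i ∈ S, t (a i) ∈ O ∧ z i ∈ O) →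
        ResInd O (fam (uu a t z) ((S.erase f).erase e)) → O.valuation (t (a f)) < 1 → O ∈ V) ∧
      (V.card : ℤ) * (s * 2) * 2 = 2 ^ rk a S * beta (con a f) (S.erase f) := by
  classical
  have hfe : f ≠ e := (Finset.mem_erase.1 hf).1
  have hfS : f ∈ S := (Finset.mem_erase.1 hf).2
  have he0 : a e ≠ 0 := by
    intro h
    have := hGen.te
    rw [h, map_zero] at this
    exact zero_ne_one this
  have heS : e ∈ S.erase f := Finset.mem_erase.2 ⟨hfe.symm, hGen.mem⟩
  by_cases hpar : a f ∈ Submodule.span ℂ {a e}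
  · -- parallel: no valuation
    obtain ⟨c, hc⟩ := Submodule.mem_span_singleton.1 hpar
    have hc0 : c ≠ 0 := by
      rintro rfl
      rw [zero_smul] at hc
      exact hf0 hc.symm
    refine ⟨∅, 0, by simp, by simp, ?_, ?_⟩
    · intro O' h1 h2 h3
      exfalso
      have h4 : t (a f) = algebraMap ℂ κ c := by
        rw [← hc, map_smul, hGen.te, Algebra.smul_def, mul_one]
      rw [h4] at h3
      have h5 := h2 (C c) (by simpa using hc0)
      rw [algHom_C] at h5
      exact h3.ne h5
    · have h1 : con a f e = 0 := by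
        rw [con, Submodule.mkQ_apply, Submodule.Quotient.mk_eq_zero,
          Submodule.mem_span_singleton]
        exact ⟨c⁻¹, by rw [← hc, smul_smul, inv_mul_cancel₀ hc0, one_smul]⟩
      rw [hLOOP ι _ (con a f) (S.erase f) e heS h1]
      simp
  · obtain ⟨B, hT, hBS, hli, hsp⟩ := exists_basis a S {e, f} (by
        intro x hx
        rw [Finset.mem_insert, Finset.mem_singleton] at hx
        rcases hx with rfl | rfl
        · exact hGen.mem
        · exact hfS) (by
      have : LinearIndepOn ℂ a (({e, f} : Finset ι) : Set ι) := by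
        rw [Finset.coe_insert, Finset.coe_singleton, Set.insert_eq, Set.union_comm,
          ← Set.insert_eq]
        refine LinearIndepOn.insert ((linearIndepOn_singleton_iff ℂ).2 he0) ?_
        rw [Set.image_singleton]
        exact hpar
      exact this) hGen.sp
    have heB : e ∈ B := hT (by simp)
    have hfB : f ∈ B := hT (by simp)
    obtain ⟨O, k, _, _, ρ, hs, hρ, hC, ht, hz, hg0, hO1, hO2, hdiv, htop, htr, huniq⟩ :=
      localData hTRB hGENB hCEX hCST hRES a S B e f t z hGen hf heB hBS hli hsp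
    have hgf : gB a S e B t z ⟨f, hf⟩ = t (a f) := by simp [gB, hfB]
    rw [hgf] at hg0 hO2 hdiv huniq
    set t' := tres ρ hρ hC t ht with ht'
    set z' : ι → k := fun i => rs ρ (z i) with hz'
    have htf : t' (a f) = 0 := (rho_zero ρ hs ⟨t (a f), ht _⟩).2 hO2
    have htc : ∀ i, tcon a f t' htf (con a f i) = t' (a i) := tcon_apply a f t' htf
    have hGen' : Gen (con a f) (S.erase f) e (tcon a f t' htf) z' := by
      refine ⟨heS, span_con_top a S f hGen.sp, ?_, ?_, ?_, htr⟩
      · rw [htc]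
        change ρ ⟨t (a e), _⟩ = 1
        have : (⟨t (a e), ht (a e)⟩ : O) = 1 := Subtype.ext hGen.te
        rw [this, map_one]
      · intro ψ
        have h1 := rel_res ρ hρ hC a S z hz hGen.rel (ψ.comp (Submodule.span ℂ {a f}).mkQ)
        rw [← Finset.add_sum_erase S _ hfS] at h1
        have h2 : (ψ.comp (Submodule.span ℂ {a f}).mkQ) (a f) = 0 := by
          rw [LinearMap.comp_apply]
          have : (Submodule.span ℂ {a f}).mkQ (a f) = 0 := by
            rw [Submodule.mkQ_apply, Submodule.Quotient.mk_eq_zero]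
            exact Submodule.mem_span_singleton_self _
          rw [this, map_zero]
        rw [h2, zero_smul, zero_add] at h1
        exact h1
      · have h3 : (fun i => tcon a f t' htf (con a f i)) = fun i => t' (a i) := funext htc
        rw [h3]
        exact htop
    have hgood := IH k (tcon a f t' htf) z' hGen'
    have hU : ∀ i ∈ S, uu a t z i ∈ O := by
      intro i hi
      exact O.mul_mem _ _ (hz i hi) (O.pow_mem (ht _) 2)
    have hmem : ∀ i : {i // i ∈ (S.erase f).erase e}, (i : ι) ∈ S := fun i =>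
      Finset.mem_of_mem_erase (Finset.mem_of_mem_erase i.2)
    have huc : uu (con a f) (tcon a f t' htf) z' = uu a t' z' := by
      funext i
      rw [uu, htc]
      rfl
    rw [Good, huc] at hgood
    have hdom : ResInd O (fam (uu a t z) ((S.erase f).erase e)) ↔
        AlgebraicIndependent ℂ (fam (uu a t' z') ((S.erase f).erase e)) := by
      have h1 := resInd_iff hC (fun i : {i // i ∈ (S.erase f).erase e} =>
        (⟨uu a t z i, hU i (hmem i)⟩ : O)) ρ hs hρ
      have h2 : (fun i : {i // i ∈ (S.erase f).erase e} => ρ ⟨uu a t z i, hU i (hmem i)⟩) =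
          fam (uu a t' z') ((S.erase f).erase e) := by
        funext i
        have := uu_res ρ hρ hC a z t ht i (hz i (hmem i))
        rw [rs_mem ρ (hU i (hmem i))] at this
        exact this.symm
      rw [h2] at h1
      exact h1
    have hvz : O.valuation (z f) = 1 := by
      refine resInd_adjoin hO1 ?_ hzf
      refine z_mem a S B hBS hli hsp z hGen.rel (fMod (IntermediateField.adjoin ℂ (Set.range
        (fun j : {j : {j // j ∈ S.erase e} // j ≠ ⟨f, hf⟩} => gB a S e B t z j)))) ?_ f hfS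
      intro j hjS hjB
      have hje : j ≠ e := fun h => hjB (h ▸ heB)
      have hj : j ∈ S.erase e := Finset.mem_erase.2 ⟨hje, hjS⟩
      have hjf : (⟨j, hj⟩ : {j // j ∈ S.erase e}) ≠ ⟨f, hf⟩ := by
        intro h
        have h3 : j = f := congrArg Subtype.val h
        exact hjB (h3 ▸ hfB)
      refine IntermediateField.subset_adjoin ℂ _ ⟨⟨⟨j, hj⟩, hjf⟩, ?_⟩
      simp [gB, hjB]
    by_cases hD : ResInd O (fam (uu a t z) ((S.erase f).erase e))
    · refine ⟨{O}, Module.finrank (gf (uu a t' z') ((S.erase f).erase e)) k, by simp, ?_, ?_, ?_⟩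
      · intro O' hO'
        rw [Finset.mem_singleton] at hO'
        subst hO'
        refine ⟨⟨hD, ?_, ⟨t (a f), hg0, hO2, hdiv, ?_⟩, ?_⟩, hO2⟩
        · rw [uu, map_mul, map_pow, hvz, one_mul]
          exact pow_lt_one₀ zero_le hO2 two_ne_zero
        · rw [uu, map_mul, map_pow, hvz, one_mul]
        · refine ⟨k, _, ρ, jHom O' _ fun x hx => gf_le hD hx, hs, fun x => rfl, ?_⟩
          refine finrank_res O' (fam (uu a t z) ((S.erase f).erase e))
            (fam (uu a t' z') ((S.erase f).erase e)) ρ hρ _ ?_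
          intro i h
          have := uu_res ρ hρ hC a z t ht i (hz i (hmem i))
          rw [rs_mem ρ (hU i (hmem i))] at this
          exact this.symm
      · intro O' h1 h2 h3
        rw [Finset.mem_singleton]
        exact huniq O' h1 h2 h3
      · have h1 := hgood.1 (hdom.1 hD)
        rw [Finset.card_singleton, Nat.cast_one, one_mul, h1, ← rk_con a S f hGen.sp hf0]
        ring
    · refine ⟨∅, 0, by simp, by simp, ?_, ?_⟩
      · intro O' h1 h2 h3
        have := huniq O' h1 h2 h3
        subst this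
        exact absurd h2 hD
      · have h1 := hgood.2 (fun h => hD (hdom.2 h))
        rw [h1]
        simp

end parts

end Pool.Agent.U220.RD
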