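import Pool.Agent.U220.RD.Ind7

namespace Pool.Agent.U220.RD

open MvPolynomial

section main

variable {ι W κ : Type} [DecidableEq ι] [AddCommGroup W] [Module ℂ W] [Field κ] [Algebra ℂ κ]

lemma e_ne (a : ι → W) (S : Finset ι) (e : ι) (t : W →ₗ[ℂ] κ) (z : ι → κ)
    (hGen : Gen a S e t z) : a e ≠ 0 := by
  intro h
  have := hGen.te
  rw [h, map_zero] at this
  exact zero_ne_one this

lemma tf_ne (hGENB : S_GENB) (a : ι → W) (S : Finset ι) (e f : ι) (t : W →ₗ[ℂ] κ) (z : ι → κ)
    (hGen : Gen a S e t z) (hf : f ∈ S.erase e) (hf0 : a f ≠ 0) : t (a f) ≠ 0 := by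
  classical
  have hfS : f ∈ S := (Finset.mem_erase.1 hf).2
  by_cases hpar : a f ∈ Submodule.span ℂ {a e}
  · obtain ⟨c, hc⟩ := Submodule.mem_span_singleton.1 hpar
    have hc0 : c ≠ 0 := by
      rintro rfl
      rw [zero_smul] at hc
      exact hf0 hc.symm
    rw [← hc, map_smul, hGen.te, Algebra.smul_def, mul_one]
    exact (map_ne_zero _).2 hc0
  · obtain ⟨B, hT, hBS, hli, hsp⟩ := exists_basis a S {e, f} (by
        intro x hx
        rw [Finset.mem_insert, Finset.mem_singleton] at hx
        rcases hx with rfl | rfl
        · exact hGen.mem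
        · exact hfS) (by
      have : LinearIndepOn ℂ a (({e, f} : Finset ι) : Set ι) := by
        rw [Finset.coe_insert, Finset.coe_singleton, Set.insert_eq, Set.union_comm,
          ← Set.insert_eq]
        refine LinearIndepOn.insert ((linearIndepOn_singleton_iff ℂ).2 (e_ne a S e t z hGen)) ?_
        rw [Set.image_singleton]
        exact hpar
      exact this) hGen.sp
    have heB : e ∈ B := hT (by simp)
    have hfB : f ∈ B := hT (by simp)
    have h1 := (hGENB ι W κ a S e t z hGen B heB hBS hli hsp).1.ne_zero ⟨f, hf⟩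
    simpa [hfB] using h1

lemma zf_ne (hGENB : S_GENB) (a : ι → W) (S : Finset ι) (e f : ι) (t : W →ₗ[ℂ] κ) (z : ι → κ)
    (hGen : Gen a S e t z) (hf : f ∈ S.erase e)
    (hfs : a f ∈ Submodule.span ℂ (a '' ((S.erase f : Finset ι) : Set ι))) : z f ≠ 0 := by
  classical
  have hfe : f ≠ e := (Finset.mem_erase.1 hf).1
  have heS : e ∈ S.erase f := Finset.mem_erase.2 ⟨hfe.symm, hGen.mem⟩
  obtain ⟨B, heB', hBS', hli, hsp⟩ := exists_basis a (S.erase f) {e}
    (Finset.singleton_subset_iff.2 heS) (by
      have : LinearIndepOn ℂ a (({e} : Finset ι) : Set ι) := by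
        rw [Finset.coe_singleton, linearIndepOn_singleton_iff]
        exact e_ne a S e t z hGen
      exact this) (span_erase_top a S f hGen.sp hfs)
  have heB : e ∈ B := heB' (Finset.mem_singleton_self e)
  have hfB : f ∉ B := fun h => (Finset.mem_erase.1 (hBS' h)).1 rfl
  have hBS : B ⊆ S := hBS'.trans (Finset.erase_subset _ _)
  have h1 := (hGENB ι W κ a S e t z hGen B heB hBS hli hsp).1.ne_zero ⟨f, hf⟩
  simpa [hfB] using h1

/-- loops and coloops -/
lemma not_indep_loop (a : ι → W) (S : Finset ι) (e f : ι) (t : W →ₗ[ℂ] κ) (z : ι → κ)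
    (hf : f ∈ S.erase e) (h : uu a t z f = 0) :
    ¬ AlgebraicIndependent ℂ (fam (uu a t z) (S.erase e)) := by
  intro hi
  exact hi.ne_zero ⟨f, hf⟩ h

lemma zf_zero (a : ι → W) (S : Finset ι) (f : ι) (z : ι → κ) (hfS : f ∈ S)
    (hrel : ∀ ψ : W →ₗ[ℂ] ℂ, ∑ i ∈ S, ψ (a i) • z i = 0)
    (hfs : a f ∉ Submodule.span ℂ (a '' ((S.erase f : Finset ι) : Set ι))) : z f = 0 := by
  obtain ⟨ψ, h1, h2⟩ := Submodule.exists_le_ker_of_notMem hfs
  have h3 := hrel ψ
  rw [← Finset.add_sum_erase S _ hfS, Finset.sum_eq_zero, add_zero] at h3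
  · rw [Algebra.smul_def] at h3
    rcases mul_eq_zero.1 h3 with h | h
    · exact absurd ((map_eq_zero _).1 h) h1
    · exact h
  · intro i hi
    have : ψ (a i) = 0 := h2 (Submodule.subset_span ⟨i, hi, rfl⟩)
    rw [this, zero_smul]

lemma step (hTRB : S_TRB) (hGENB : S_GENB) (hCEX : S_CEX) (hCST : S_CST) (hRES : S_RES)
    (hBDC : S_BDC) (hLOOP : S_BLOOP) (hEXCL : S_EXCL) (hRAM : S_RAM)
    (a : ι → W) (S : Finset ι) (e f : ι) (t : W →ₗ[ℂ] κ) (z : ι → κ)
    (hGen : Gen a S e t z) (hf : f ∈ S.erase e) (hf0 : a f ≠ 0)
    (hfs : a f ∈ Submodule.span ℂ (a '' ((S.erase f : Finset ι) : Set ι)))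
    (IH1 : ∀ (k : Type) [Field k] [Algebra ℂ k] (t' : W →ₗ[ℂ] k) (z' : ι → k),
      Gen a (S.erase f) e t' z' → Good a (S.erase f) e t' z')
    (IH2 : ∀ (k : Type) [Field k] [Algebra ℂ k] (t' : (W ⧸ Submodule.span ℂ {a f}) →ₗ[ℂ] k)
      (z' : ι → k), Gen (con a f) (S.erase f) e t' z' → Good (con a f) (S.erase f) e t' z') :
    Good a S e t z := by
  classical
  have hfe : f ≠ e := (Finset.mem_erase.1 hf).1
  have hfS : f ∈ S := (Finset.mem_erase.1 hf).2
  have heS : e ∈ S.erase f := Finset.mem_erase.2 ⟨hfe.symm, hGen.mem⟩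
  have htf := tf_ne hGENB a S e f t z hGen hf hf0
  have hzf := zf_ne hGENB a S e f t z hGen hf hfs
  have huf : uu a t z f ≠ 0 := mul_ne_zero hzf (pow_ne_zero 2 htf)
  obtain ⟨VD, sD, hcD, hD1, hD2, hD3⟩ :=
    partD hTRB hGENB hCEX hCST hRES a S e f t z hGen hf hfs htf IH1
  obtain ⟨VC, sC, hcC, hC1, hC2, hC3⟩ :=
    partC hTRB hGENB hCEX hCST hRES hLOOP a S e f t z hGen hf hf0 hzf IH2
  have hβ := hBDC ι W a S f hfS ⟨e, heS⟩ hf0 hfs
  have hdisj : Disjoint VD VC := by
    rw [Finset.disjoint_left]
    intro O h1 h2
    have h3 := (hD1 O h1).2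
    have h4 := (hC1 O h2).2
    rw [h3] at h4
    exact lt_irrefl _ h4
  constructor
  · intro hind
    have hsplit := (algInd_split (uu a t z) hfS hfe).1 hind
    set K := gf (uu a t z) ((S.erase f).erase e) with hK
    have hfin : FiniteDimensional (gf (uu a t z) (S.erase e)) κ := by
      refine findim_gf (uu a t z) (S.erase e) hind ?_ _ ?_ hGen.top
      · have h1 := hGen.tr
        have h2 := Finset.card_erase_add_one hGen.mem
        rw [← h2, Nat.cast_add, Nat.cast_one] at h1
        exact (Cardinal.add_one_inj.1 h1).le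
      · exact (S.finite_toSet.image _).union (S.finite_toSet.image _)
    have hfin' := findim_gf' (uu a t z) hfS hfe hfin
    rw [finrank_gf (uu a t z) hfS hfe]
    have hram := hRAM κ K (uu a t z f) hsplit.2 hfin' (VD ∪ VC)
      (fun O => if O ∈ VD then 1 else 2) (fun O => if O ∈ VD then sD else sC) ?_ ?_ ?_
    · rw [hram, Finset.sum_union hdisj]
      have h1 : ∑ O ∈ VD, (if O ∈ VD then 1 else 2) * (if O ∈ VD then sD else sC) =
          VD.card * sD := by
        rw [Finset.sum_congr rfl (g := fun _ => sD) fun O hO => by simp [hO]]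
        simp
      have h2 : ∑ O ∈ VC, (if O ∈ VD then 1 else 2) * (if O ∈ VD then sD else sC) =
          VC.card * (2 * sC) := by
        rw [Finset.sum_congr rfl (g := fun _ => 2 * sC) fun O hO => by
          have : O ∉ VD := fun h => (Finset.disjoint_left.1 hdisj h) hO
          simp [this]]
        simp
      rw [h1, h2, hβ]
      push_cast
      linear_combination hD3 + hC3
    · intro O
      rw [Finset.mem_union]
      constructor
      · rintro (h | h)
        · have := (hD1 O h).1
          exact ⟨fun x hx => gf_le this.1 hx, this.2.1⟩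
        · have := (hC1 O h).1
          exact ⟨fun x hx => gf_le this.1 hx, this.2.1⟩
      · rintro ⟨h1, h2⟩
        have hres : ResInd O (fam (uu a t z) ((S.erase f).erase e)) := by
          intro p hp
          have h3 : aeval (fam (uu a t z) ((S.erase f).erase e)) p ∈ K := by
            have h5 : aeval (fam (uu a t z) ((S.erase f).erase e)) p ∈
                Algebra.adjoin ℂ (Set.range (fam (uu a t z) ((S.erase f).erase e))) := by
              rw [Algebra.adjoin_range_eq_range_aeval]
              exact ⟨p, rfl⟩
            exact IntermediateField.algebra_adjoin_le_adjoin ℂ _ h5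
          have h4 : aeval (fam (uu a t z) ((S.erase f).erase e)) p ≠ 0 := by
            intro h
            exact hp ((algebraicIndependent_iff.1 hsplit.1) p h)
          have h5 := (ValuationSubring.valuation_le_one_iff _ _).2 (h1 _ h3)
          have h6 := (ValuationSubring.valuation_le_one_iff _ _).2 (h1 _ (K.inv_mem h3))
          rw [map_inv₀] at h6
          have h7 : O.valuation (aeval (fam (uu a t z) ((S.erase f).erase e)) p) ≠ 0 :=
            (map_ne_zero _).2 h4
          exact le_antisymm h5 ((inv_le_one₀ (zero_lt_iff.2 h7)).1 h6)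
        have hall := hEXCL ι W κ O a S e f t z hGen.mem hfS hfe.symm hf0 hfs hGen.te hGen.rel
          hres h2
        by_cases hz1 : O.valuation (z f) < 1
        · exact Or.inl (hD2 O hall hres hz1)
        · right
          refine hC2 O hall hres ?_
          by_contra ht1
          have hz2 : O.valuation (z f) = 1 := le_antisymm
            ((ValuationSubring.valuation_le_one_iff _ _).2 (hall f hfS).2) (not_lt.1 hz1)
          have ht2 : O.valuation (t (a f)) = 1 := le_antisymm
            ((ValuationSubring.valuation_le_one_iff _ _).2 (hall f hfS).1) (not_lt.1 ht1)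
          rw [uu, map_mul, map_pow, hz2, ht2, one_pow, mul_one] at h2
          exact lt_irrefl _ h2
    · intro O hO
      by_cases h : O ∈ VD
      · simp only [h, if_true]
        exact (hD1 O h).1.2.2.1
      · simp only [h, if_false]
        have h' : O ∈ VC := (Finset.mem_union.1 hO).resolve_left h
        exact (hC1 O h').1.2.2.1
    · intro O hO
      by_cases h : O ∈ VD
      · simp only [h, if_true]
        exact (hD1 O h).1.2.2.2
      · simp only [h, if_false]
        have h' : O ∈ VC := (Finset.mem_union.1 hO).resolve_left h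
        exact (hC1 O h').1.2.2.2
  · intro hind
    have h1 : VD = ∅ := by
      by_contra hne
      obtain ⟨O, hO⟩ := Finset.nonempty_iff_ne_empty.2 hne
      have h2 := (hD1 O hO).1
      exact hind (algInd_of_dom (uu a t z) hfS hfe h2.1 huf h2.2.1)
    have h2 : VC = ∅ := by
      by_contra hne
      obtain ⟨O, hO⟩ := Finset.nonempty_iff_ne_empty.2 hne
      have h2 := (hC1 O hO).1
      exact hind (algInd_of_dom (uu a t z) hfS hfe h2.1 huf h2.2.1)
    rw [h1, Finset.card_empty, Nat.cast_zero, zero_mul] at hD3
    rw [h2, Finset.card_empty, Nat.cast_zero, zero_mul, zero_mul] at hC3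
    have h5 : (2 : ℤ) ^ rk a S ≠ 0 := pow_ne_zero _ two_ne_zero
    have h3 : beta a (S.erase f) = 0 := by
      rcases mul_eq_zero.1 hD3.symm with h | h
      · exact absurd h h5
      · exact h
    have h4 : beta (con a f) (S.erase f) = 0 := by
      rcases mul_eq_zero.1 hC3.symm with h | h
      · exact absurd h h5
      · exact h
    rw [hβ, h3, h4, add_zero]

end main

theorem ind (hTRB : S_TRB) (hGENB : S_GENB) (hCEX : S_CEX) (hCST : S_CST) (hRES : S_RES)
    (hBDC : S_BDC) (hLOOP : S_BLOOP) (hCOLOOP : S_BCOLOOP) (hONE : S_BONE) (hEXCL : S_EXCL)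
    (hRAM : S_RAM) : S_IND := by
  have key : ∀ (ι : Type) [DecidableEq ι] (n : ℕ) (W κ : Type) [AddCommGroup W] [Module ℂ W]
      [Field κ] [Algebra ℂ κ] (a : ι → W) (S : Finset ι) (e : ι) (t : W →ₗ[ℂ] κ) (z : ι → κ),
      S.card = n → Gen a S e t z → Good a S e t z := by
    intro ι _ n
    induction n using Nat.strong_induction_on with
    | _ n IH =>
      intro W κ _ _ _ _ a S e t z hn hGen
      by_cases hemp : S.erase e = ∅
      · -- a single vector
        have hS : S = {e} := by
          rw [← Finset.insert_erase hGen.mem, hemp]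
          rfl
        subst hS
        have hz : z e = 0 := by
          refine zf_zero a {e} e z (by simp) hGen.rel ?_
          have : (({e} : Finset ι).erase e : Finset ι) = ∅ := by simp
          rw [this]
          simp only [Finset.coe_empty, Set.image_empty, Submodule.span_empty, Submodule.mem_bot]
          exact e_ne a {e} e t z hGen
        constructor
        · intro _
          have h1 : gf (uu a t z) (({e} : Finset ι).erase e) = ⊥ := by
            rw [gf, IntermediateField.adjoin_eq_bot_iff]
            rintro x ⟨⟨i, hi⟩, rfl⟩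
            simp at hi
          have h2 : (⊥ : IntermediateField ℂ κ) = ⊤ := by
            rw [← hGen.top, eq_comm, IntermediateField.adjoin_eq_bot_iff]
            rintro x (⟨i, hi, rfl⟩ | ⟨i, hi, rfl⟩)
            · have : i = e := by simpa using hi
              subst this
              simp only [hGen.te, SetLike.mem_coe]
              exact one_mem _
            · have : i = e := by simpa using hi
              subst this
              rw [hz]
              exact zero_mem _
          have h3 : Module.finrank (gf (uu a t z) (({e} : Finset ι).erase e)) κ = 1 := by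
            rw [h1, h2]
            exact IntermediateField.finrank_top
          have h4 : rk a {e} = 1 := by
            rw [rk, Finset.coe_singleton, Set.image_singleton,
              finrank_span_singleton (e_ne a {e} e t z hGen)]
          rw [h3, h4, hONE ι W a e (e_ne a {e} e t z hGen)]
          norm_num
        · intro h
          exfalso
          apply h
          have : IsEmpty {i // i ∈ (({e} : Finset ι).erase e)} := by
            constructor
            rintro ⟨i, hi⟩
            simp at hi
          rw [algebraicIndependent_empty_type_iff]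
          exact (algebraMap ℂ κ).injective
      · obtain ⟨f, hf⟩ := Finset.nonempty_iff_ne_empty.2 hemp
        have hfS : f ∈ S := (Finset.mem_erase.1 hf).2
        have hfe : f ≠ e := (Finset.mem_erase.1 hf).1
        have heS : e ∈ S.erase f := Finset.mem_erase.2 ⟨hfe.symm, hGen.mem⟩
        by_cases hf0 : a f = 0
        · have h0 : uu a t z f = 0 := by
            rw [uu, hf0, map_zero]; ring
          exact ⟨fun h => absurd h (not_indep_loop a S e f t z hf h0),
            fun _ => hLOOP ι W a S f hfS hf0⟩
        · by_cases hfs : a f ∈ Submodule.span ℂ (a '' ((S.erase f : Finset ι) : Set ι))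
          · have hcard : (S.erase f).card < n := by
              rw [← hn]
              exact Finset.card_erase_lt_of_mem hfS
            exact step hTRB hGENB hCEX hCST hRES hBDC hLOOP hEXCL hRAM a S e f t z hGen hf hf0 hfs
              (fun k _ _ t' z' h => IH _ hcard W k a (S.erase f) e t' z' rfl h)
              (fun k _ _ t' z' h => IH _ hcard _ k (con a f) (S.erase f) e t' z' rfl h)
          · have h0 : uu a t z f = 0 := by
              rw [uu, zf_zero a S f z hfS hGen.rel hfs, zero_mul]
            exact ⟨fun h => absurd h (not_indep_loop a S e f t z hf h0),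
              fun _ => hCOLOOP ι W a S f hfS ⟨e, heS⟩ hfs⟩
  intro ι W κ _ _ _ _ _ a S e t z hGen
  exact key ι S.card W κ a S e t z rfl hGen

end Pool.Agent.U220.RD
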