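import Mathlib

/-! Project RD: the degree of the dual variety of a reciprocal linear space is `2 ^ d * beta`. -/

namespace Pool.Agent.U220.RD

open MvPolynomial

/-- rank of the vectors `a i`, `i ∈ S` -/
noncomputable def rk {ι W : Type} [AddCommGroup W] [Module ℂ W] (a : ι → W) (S : Finset ι) : ℕ :=
  Module.finrank ℂ (Submodule.span ℂ (a '' (S : Set ι)))

/-- beta invariant of the matroid of the vectors `a i`, `i ∈ S` -/
noncomputable def beta {ι W : Type} [AddCommGroup W] [Module ℂ W] (a : ι → W) (S : Finset ι) : ℤ :=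
  (-1) ^ rk a S * ∑ T ∈ S.powerset, (-1) ^ T.card * (rk a T : ℤ)

/-- connected matroid -/
def Conn {ι W : Type} [DecidableEq ι] [AddCommGroup W] [Module ℂ W] (a : ι → W) (S : Finset ι) :
    Prop :=
  ∀ T ⊆ S, T.Nonempty → (S \ T).Nonempty → rk a S < rk a T + rk a (S \ T)

/-- contraction of the vector `a f` -/
noncomputable def con {ι W : Type} [AddCommGroup W] [Module ℂ W] (a : ι → W) (f : ι) :
    ι → W ⧸ Submodule.span ℂ {a f} :=
  fun i => (Submodule.span ℂ {a f}).mkQ (a i)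

/-! ### package COMB -/

def S_BDC : Prop :=
  ∀ (ι W : Type) [DecidableEq ι] [AddCommGroup W] [Module ℂ W] (a : ι → W) (S : Finset ι) (f : ι),
    f ∈ S → (S.erase f).Nonempty → a f ≠ 0 →
    a f ∈ Submodule.span ℂ (a '' ((S.erase f : Finset ι) : Set ι)) →
    beta a S = beta a (S.erase f) + beta (con a f) (S.erase f)

def S_BLOOP : Prop :=
  ∀ (ι W : Type) [DecidableEq ι] [AddCommGroup W] [Module ℂ W] (a : ι → W) (S : Finset ι) (f : ι),
    f ∈ S → a f = 0 → beta a S = 0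

def S_BCOLOOP : Prop :=
  ∀ (ι W : Type) [DecidableEq ι] [AddCommGroup W] [Module ℂ W] (a : ι → W) (S : Finset ι) (f : ι),
    f ∈ S → (S.erase f).Nonempty →
    a f ∉ Submodule.span ℂ (a '' ((S.erase f : Finset ι) : Set ι)) → beta a S = 0

def S_BONE : Prop :=
  ∀ (ι W : Type) [DecidableEq ι] [AddCommGroup W] [Module ℂ W] (a : ι → W) (e : ι),
    a e ≠ 0 → beta a {e} = 1

def S_BPOS : Prop :=
  ∀ (ι W : Type) [DecidableEq ι] [AddCommGroup W] [Module ℂ W] (a : ι → W) (S : Finset ι),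
    S.Nonempty → (∀ i ∈ S, a i ≠ 0) → Conn a S → 0 < beta a S

/-! ### generic points -/

/-- the residues of the `u j` are algebraically independent -/
def ResInd {σ κ : Type} [Field κ] [Algebra ℂ κ] (O : ValuationSubring κ) (u : σ → κ) : Prop :=
  ∀ p : MvPolynomial σ ℂ, p ≠ 0 → O.valuation (aeval u p) = 1

/-- `t` is a `κ`-point of the dual space of `W`, `z` a `κ`-valued linear relation between
the vectors `a i`, `i ∈ S`; together they are a generic point with `t (a e) = 1`. -/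
structure Gen {ι W κ : Type} [AddCommGroup W] [Module ℂ W] [Field κ] [Algebra ℂ κ]
    (a : ι → W) (S : Finset ι) (e : ι) (t : W →ₗ[ℂ] κ) (z : ι → κ) : Prop where
  mem : e ∈ S
  sp : Submodule.span ℂ (a '' (S : Set ι)) = ⊤
  te : t (a e) = 1
  rel : ∀ ψ : W →ₗ[ℂ] ℂ, ∑ i ∈ S, ψ (a i) • z i = 0
  top : IntermediateField.adjoin ℂ ((fun i => t (a i)) '' (S : Set ι) ∪ z '' (S : Set ι)) = ⊤
  tr : Algebra.trdeg ℂ κ + 1 = (S.card : Cardinal)

/-- `u i = z i * t (a i) ^ 2` -/
def uu {ι W κ : Type} [AddCommGroup W] [Module ℂ W] [Field κ] [Algebra ℂ κ]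
    (a : ι → W) (t : W →ₗ[ℂ] κ) (z : ι → κ) (i : ι) : κ := z i * t (a i) ^ 2

/-! ### package EXCL -/

def S_EXCL : Prop :=
  ∀ (ι W κ : Type) [DecidableEq ι] [AddCommGroup W] [Module ℂ W] [Field κ] [Algebra ℂ κ]
    (O : ValuationSubring κ) (a : ι → W) (S : Finset ι) (e f : ι) (t : W →ₗ[ℂ] κ) (z : ι → κ),
    e ∈ S → f ∈ S → e ≠ f → a f ≠ 0 →
    a f ∈ Submodule.span ℂ (a '' ((S.erase f : Finset ι) : Set ι)) →
    t (a e) = 1 → (∀ ψ : W →ₗ[ℂ] ℂ, ∑ i ∈ S, ψ (a i) • z i = 0) →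
    ResInd O (fun i : {i // i ∈ (S.erase f).erase e} => uu a t z i) →
    O.valuation (uu a t z f) < 1 →
    ∀ i ∈ S, t (a i) ∈ O ∧ z i ∈ O

/-! ### package COORD -/

/-- existence of the coordinate valuation -/
def S_CEX : Prop :=
  ∀ (σ κ : Type) [Field κ] [Algebra ℂ κ] (g : σ → κ) (f : σ),
    AlgebraicIndependent ℂ g →
    ∃ O : ValuationSubring κ, ResInd O (fun j : {j // j ≠ f} => g j) ∧ O.valuation (g f) < 1

/-- structure of the coordinate valuation -/
def S_CST : Prop :=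
  ∀ (σ κ : Type) [Field κ] [Algebra ℂ κ] (g : σ → κ) (f : σ),
    AlgebraicIndependent ℂ g → IntermediateField.adjoin ℂ (Set.range g) = ⊤ →
    ∀ O : ValuationSubring κ, ResInd O (fun j : {j // j ≠ f} => g j) → O.valuation (g f) < 1 →
      (∀ w ∈ IntermediateField.adjoin ℂ (g '' {f}ᶜ), w ≠ 0 → O.valuation w = 1) ∧
      (∀ y : κ, y ≠ 0 → ∃ m : ℤ, ∃ w ∈ IntermediateField.adjoin ℂ (g '' {f}ᶜ),
        w ≠ 0 ∧ O.valuation (y / g f ^ m) = 1 ∧ O.valuation (y / g f ^ m - w) < 1) ∧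
      (∀ O' : ValuationSubring κ, ResInd O' (fun j : {j // j ≠ f} => g j) →
        O'.valuation (g f) < 1 → O' = O)

/-- a generating family whose size is the transcendence degree is algebraically independent -/
def S_TRB : Prop :=
  ∀ (σ κ : Type) [Fintype σ] [Field κ] [Algebra ℂ κ] (g : σ → κ),
    IntermediateField.adjoin ℂ (Set.range g) = ⊤ →
    (Fintype.card σ : Cardinal) ≤ Algebra.trdeg ℂ κ → AlgebraicIndependent ℂ g

/-- coordinates of a generic point for a basis `B` containing `e` -/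
def S_GENB : Prop :=
  ∀ (ι W κ : Type) [DecidableEq ι] [AddCommGroup W] [Module ℂ W] [Field κ] [Algebra ℂ κ]
    (a : ι → W) (S : Finset ι) (e : ι) (t : W →ₗ[ℂ] κ) (z : ι → κ), Gen a S e t z →
    ∀ B : Finset ι, e ∈ B → B ⊆ S → LinearIndependent ℂ (fun b : B => a b) →
      Submodule.span ℂ (a '' (B : Set ι)) = ⊤ →
      AlgebraicIndependent ℂ
        (fun j : {j // j ∈ S.erase e} => if (j : ι) ∈ B then t (a j) else z j) ∧
      IntermediateField.adjoin ℂ (Set.range
        (fun j : {j // j ∈ S.erase e} => if (j : ι) ∈ B then t (a j) else z j)) = ⊤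

/-! ### package RAM -/

def S_RAM : Prop :=
  ∀ (κ : Type) [Field κ] [Algebra ℂ κ] (K : IntermediateField ℂ κ) (y : κ),
    Transcendental K y → FiniteDimensional (IntermediateField.adjoin K {y}) κ →
    ∀ (V : Finset (ValuationSubring κ)) (r s : ValuationSubring κ → ℕ),
      (∀ O : ValuationSubring κ, O ∈ V ↔ (∀ x ∈ K, x ∈ O) ∧ O.valuation y < 1) →
      (∀ O ∈ V, ∃ π : κ, π ≠ 0 ∧ O.valuation π < 1 ∧ (∀ x : κ, O.valuation x < 1 → x / π ∈ O) ∧
        O.valuation y = O.valuation π ^ r O) →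
      (∀ O ∈ V, ∃ (k : Type) (_ : Field k) (ρ : O →+* k) (j : K →+* O),
        Function.Surjective ρ ∧ (∀ x : K, ((j x : O) : κ) = x) ∧
        @Module.finrank K k _ _ (RingHom.toAlgebra (ρ.comp j)).toModule = s O) →
      Module.finrank (IntermediateField.adjoin K {y}) κ = ∑ O ∈ V, r O * s O

/-! ### packages INT and BIR -/

def S_INT : Prop :=
  ∀ (ι W κ : Type) [DecidableEq ι] [AddCommGroup W] [Module ℂ W] [Field κ] [Algebra ℂ κ]
    (a : ι → W) (S : Finset ι) (e : ι) (t : W →ₗ[ℂ] κ) (z : ι → κ),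
    e ∈ S → t (a e) = 1 → (∀ ψ : W →ₗ[ℂ] ℂ, ∑ i ∈ S, ψ (a i) • z i = 0) →
    IsIntegral (Algebra.adjoin ℂ (Set.range
      (fun i : {i // i ∈ S.erase e} => uu a t z i))) (uu a t z e)

def S_BIR : Prop :=
  ∀ (ι W κ : Type) [DecidableEq ι] [AddCommGroup W] [Module ℂ W] [Field κ] [Algebra ℂ κ]
    (a : ι → W) (S : Finset ι) (e : ι) (t : W →ₗ[ℂ] κ) (z : ι → κ), Gen a S e t z →
    AlgebraicIndependent ℂ (fun i : {i // i ∈ S.erase e} => uu a t z i) →
    IntermediateField.adjoin ℂ (Set.range (fun i : {i // i ∈ S} => uu a t z i)) = ⊤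

/-! ### the degree of a generic point (IND) -/

def S_IND : Prop :=
  ∀ (ι W κ : Type) [DecidableEq ι] [AddCommGroup W] [Module ℂ W] [Field κ] [Algebra ℂ κ]
    (a : ι → W) (S : Finset ι) (e : ι) (t : W →ₗ[ℂ] κ) (z : ι → κ), Gen a S e t z →
    (AlgebraicIndependent ℂ (fun i : {i // i ∈ S.erase e} => uu a t z i) →
      (Module.finrank (IntermediateField.adjoin ℂ (Set.range
        (fun i : {i // i ∈ S.erase e} => uu a t z i))) κ : ℤ) * 2 = 2 ^ rk a S * beta a S) ∧
    (¬ AlgebraicIndependent ℂ (fun i : {i // i ∈ S.erase e} => uu a t z i) → beta a S = 0)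

/-! ### geometry -/

/-- the linear form with coefficient vector `a` -/
def form {m : ℕ} (a : Fin m → ℂ) (t : Fin m → ℂ) : ℂ := ∑ j, a j * t j

/-- Zariski closure in projective space of a set of points (given by coordinate vectors) -/
def closure {N : ℕ} (X : Set (Fin N → ℂ)) : Set (Fin N → ℂ) :=
  {y | y ≠ 0 ∧ ∀ (F : MvPolynomial (Fin N) ℂ) (k : ℕ), F.IsHomogeneous k →
    (∀ x ∈ X, eval x F = 0) → eval y F = 0}

/-- reciprocal linear space -/
def reciprocal {N m : ℕ} (a : Fin N → Fin m → ℂ) : Set (Fin N → ℂ) :=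
  closure {y | ∃ t : Fin m → ℂ, (∀ i, form (a i) t ≠ 0) ∧ y = fun i => (form (a i) t)⁻¹}

/-- tangent space at `x` of the cone over `X`: the kernel of the differentials of all
homogeneous polynomials vanishing on `X` -/
def tangent {N : ℕ} (X : Set (Fin N → ℂ)) (x : Fin N → ℂ) : Submodule ℂ (Fin N → ℂ) where
  carrier := {v | ∀ (F : MvPolynomial (Fin N) ℂ) (k : ℕ), F.IsHomogeneous k →
    (∀ y ∈ X, eval y F = 0) → ∑ i, eval x (pderiv i F) * v i = 0}
  add_mem' := by
    intro v w hv hw F k hF hX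
    have h1 := hv F k hF hX
    have h2 := hw F k hF hX
    simp only [Pi.add_apply, mul_add, Finset.sum_add_distrib, h1, h2, add_zero]
  zero_mem' := by
    intro F k hF hX
    simp
  smul_mem' := by
    intro c v hv F k hF hX
    have h1 := hv F k hF hX
    have : ∑ i, eval x (pderiv i F) * (c • v) i = c * ∑ i, eval x (pderiv i F) * v i := by
      rw [Finset.mul_sum]
      refine Finset.sum_congr rfl fun i _ => ?_
      simp only [Pi.smul_apply, smul_eq_mul]
      ring
    rw [this, h1, mul_zero]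

/-- smooth points: the tangent space has minimal dimension -/
def Smooth {N : ℕ} (X : Set (Fin N → ℂ)) (x : Fin N → ℂ) : Prop :=
  x ∈ X ∧ ∀ y ∈ X, Module.finrank ℂ (tangent X x) ≤ Module.finrank ℂ (tangent X y)

/-- dual variety: closure of the set of hyperplanes (with coefficients `u`) tangent to `X` at
some smooth point -/
def dual {N : ℕ} (X : Set (Fin N → ℂ)) : Set (Fin N → ℂ) :=
  closure {u | u ≠ 0 ∧ ∃ x, Smooth X x ∧ ∀ v ∈ tangent X x, ∑ i, u i * v i = 0}

/-- the hyperplanes tangent at the points of the torus -/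
def critical {N m : ℕ} (a : Fin N → Fin m → ℂ) : Set (Fin N → ℂ) :=
  {u | ∃ t : Fin m → ℂ, (∀ i, form (a i) t ≠ 0) ∧
    ∀ j, ∑ i, u i * a i j / form (a i) t ^ 2 = 0}

/-! ### package GEO -/

def S_GEO : Prop :=
  ∀ (N m : ℕ) (a : Fin N → Fin m → ℂ), Submodule.span ℂ (Set.range a) = ⊤ → (∀ i, a i ≠ 0) →
    dual (reciprocal a) = closure (critical a)

/-! ### package LINK -/

/-- the generic point: a field `κ` with a generic pair, such that a polynomial vanishes on the
set `critical a` if and only if it vanishes at the point `u` of the generic pair. -/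
def S_LINK : Prop :=
  ∀ (N m : ℕ) (a : Fin N → Fin m → ℂ), Submodule.span ℂ (Set.range a) = ⊤ → (∀ i, a i ≠ 0) →
    ∀ e : Fin N, ∃ (κ : Type) (_ : Field κ) (_ : Algebra ℂ κ) (t : (Fin m → ℂ) →ₗ[ℂ] κ)
      (z : Fin N → κ), Gen a Finset.univ e t z ∧
      ∀ G : MvPolynomial (Fin N) ℂ,
        (∀ u ∈ critical a, eval u G = 0) ↔ aeval (fun i => uu a t z i) G = 0

end Pool.Agent.U220.RD
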