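import Pool.Agent.U220.RD.Ind8
import Pool.Agent.U460.RD.COMB
import Pool.Agent.U913.RD.EXCL
import Pool.Agent.U346.RD.COORD
import Pool.Agent.U796.RD.RAM
import Pool.Agent.U394.RD.INTBIR
import Pool.Agent.U928.RD.GEO
import Pool.Agent.U49.RD.LINK
import Pool.Agent.U324.RD.FPOL
import Pool.Agent.U780.RD.RES

namespace Pool.Agent.U220.RD

open MvPolynomial

theorem t_IND : S_IND :=
  ind Pool.Agent.U346.RD.t_TRB Pool.Agent.U346.RD.t_GENB Pool.Agent.U346.RD.t_CEX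
    Pool.Agent.U346.RD.t_CST (Pool.Agent.U780.RD.t_RES Pool.Agent.U346.RD.t_CST)
    Pool.Agent.U460.RD.t_BDC Pool.Agent.U460.RD.t_BLOOP Pool.Agent.U460.RD.t_BCOLOOP
    Pool.Agent.U460.RD.t_BONE Pool.Agent.U913.RD.EXCL.t_EXCL Pool.Agent.U796.RD.t_RAM

theorem t_FPOL : S_FPOL :=
  Pool.Agent.U324.RD.t_FPOL Pool.Agent.U394.RD.t_INT Pool.Agent.U394.RD.t_BIR t_IND
    Pool.Agent.U49.RD.t_LINK

/-- the main theorem, in coordinates -/
theorem main (N m : ℕ) (a : Fin N → Fin m → ℂ) (hsp : Submodule.span ℂ (Set.range a) = ⊤)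
    (h0 : ∀ i, a i ≠ 0) (hN : 0 < N) (hc : Conn a Finset.univ) :
    ∃ (F : MvPolynomial (Fin N) ℂ) (D : ℕ), Irreducible F ∧ F.IsHomogeneous D ∧
      (D : ℤ) * 2 = 2 ^ m * beta a Finset.univ ∧ 0 < beta a Finset.univ ∧
      dual (reciprocal a) = {u | u ≠ 0 ∧ eval u F = 0} := by
  have hne : (Finset.univ : Finset (Fin N)).Nonempty := ⟨⟨0, hN⟩, Finset.mem_univ _⟩
  have hpos := Pool.Agent.U460.RD.t_BPOS (Fin N) (Fin m → ℂ) a Finset.univ hne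
    (fun i _ => h0 i) hc
  obtain ⟨F, D, h1, h2, h3, h4⟩ := t_FPOL N m a hsp h0 ⟨0, hN⟩ hpos
  have hrk : rk a Finset.univ = m := by
    rw [rk, Finset.coe_univ, Set.image_univ, hsp, finrank_top, Module.finrank_fin_fun]
  rw [hrk] at h3
  exact ⟨F, D, h1, h2, h3, hpos, by rw [Pool.Agent.U928.RD.t_GEO N m a hsp h0, h4]⟩

end Pool.Agent.U220.RD
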