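import Pool.Agent.U220.RD.Stm

namespace Pool.Agent.U220.RD

open MvPolynomial

/-! ### package FPOL: to be proved as
`theorem t_FPOL : S_INT → S_BIR → S_IND → S_LINK → S_FPOL` -/

def S_FPOL : Prop :=
  ∀ (N m : ℕ) (a : Fin N → Fin m → ℂ), Submodule.span ℂ (Set.range a) = ⊤ → (∀ i, a i ≠ 0) →
    ∀ e : Fin N, 0 < beta a Finset.univ →
    ∃ (F : MvPolynomial (Fin N) ℂ) (D : ℕ), Irreducible F ∧ F.IsHomogeneous D ∧
      (D : ℤ) * 2 = 2 ^ rk a Finset.univ * beta a Finset.univ ∧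
      closure (critical a) = {u | u ≠ 0 ∧ eval u F = 0}

/-! ### package RES -/

/-- residue field of the coordinate valuation -/
def S_RES : Prop :=
  ∀ (σ κ : Type) [Field κ] [Algebra ℂ κ] (g : σ → κ) (f : σ),
    AlgebraicIndependent ℂ g → IntermediateField.adjoin ℂ (Set.range g) = ⊤ →
    ∀ O : ValuationSubring κ, ResInd O (fun j : {j // j ≠ f} => g j) → O.valuation (g f) < 1 →
    ∃ (k : Type) (_ : Field k) (_ : Algebra ℂ k) (ρ : O →+* k), Function.Surjective ρ ∧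
      (∀ (c : ℂ) (x : O), (x : κ) = algebraMap ℂ κ c → ρ x = algebraMap ℂ k c) ∧
      ∀ G : {j // j ≠ f} → O, (∀ j, (G j : κ) = g j) →
        AlgebraicIndependent ℂ (fun j => ρ (G j)) ∧
        IntermediateField.adjoin ℂ (Set.range fun j => ρ (G j)) = ⊤

end Pool.Agent.U220.RD
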